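import Pool.Agent.FS.MonoDom.Tensor

namespace Pool.Agent.FS.MonoDom
open Finset
open scoped BigOperators Classical

theorem pr_equiv {A B : Type} [Fintype A] [Fintype B] (e : A ≃ B) (P : B → Prop) :
    pr (fun a => P (e a)) = pr P := by
  unfold pr
  exact Fintype.expect_equiv e _ _ fun a => rfl

theorem pr_mul {A B : Type} [Fintype A] [Fintype B] (P : A → Prop) (P' : B → Prop) :
    pr (fun p : A × B => P p.1 ∧ P' p.2) = pr P * pr P' := by
  unfold pr
  rw [Finset.expect_mul_expect, ← Finset.univ_product_univ, Finset.expect_product]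
  refine Finset.expect_congr rfl fun a _ => Finset.expect_congr rfl fun b _ => ?_
  by_cases h1 : P a <;> by_cases h2 : P' b <;> simp [h1, h2]

theorem pr_fst {A B : Type} [Fintype A] [Fintype B] [Nonempty B] (P : A → Prop) :
    pr (fun p : A × B => P p.1) = pr P := by
  have := pr_mul P (fun _ : B => True)
  rw [pr_true, mul_one] at this
  simpa using this

theorem pr_point {A : Type} [Fintype A] (a : A) : pr (fun b => b = a) = 1 / Fintype.card A := by
  rw [pr_eq_card]
  congr 1
  have : (Finset.univ.filter fun b => b = a) = {a} := by ext b; simp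
  simp only [Nat.cast_eq_one]
  convert Finset.card_singleton a

theorem pr_coord {R A : Type} [Fintype R] [DecidableEq R] [Fintype A] [Nonempty A] (r : R)
    (P : A → Prop) : pr (fun f : R → A => P (f r)) = pr P := by
  rw [← pr_fst (B := {j // j ≠ r} → A) P, ← pr_equiv (Equiv.funSplitAt r A)]
  rfl

abbrev Inp (R : Type) (m : ℕ) := Fin m → R → Prop

variable {R : Type} [Fintype R] [DecidableEq R] {m k : ℕ}

def X (I : Finset (Fin k)) (v : Fin k → R) (φ : Fin m → Fin k) : Inp R m :=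
  fun u r => φ u ∈ I ∧ v (φ u) = r

def Y {Q : ℕ} (W : Finset R) (y : Fin m → R → Fin Q) : Inp R m :=
  fun u r => r ∈ W ∧ (y u r).val ≠ 0

def Strong (Q : ℕ) (s : ℝ) (g : Inp R m → Prop) (z : Inp R m) (W : Finset R) : Prop :=
  s ≤ pr (fun y : Fin m → R → Fin Q => g (z ⊔ Y W y))

theorem Y_mono {Q : ℕ} {W W' : Finset R} (h : W ⊆ W') (y : Fin m → R → Fin Q) : Y W y ≤ Y W' y :=
  fun _ _ hr => ⟨h hr.1, hr.2⟩

theorem indep {Q : ℕ} (hQ : 0 < Q) (P P' : Inp R m → Prop) (W W' : Finset R) (hW : ∀ r ∈ W', r ∉ W) :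
    pr (fun y : Fin m → R → Fin Q => P (Y W y) ∧ P' (Y W' y)) =
      pr (fun y : Fin m → R → Fin Q => P (Y W y)) * pr (fun y : Fin m → R → Fin Q => P' (Y W' y)) := by
  haveI : Nonempty (Fin Q) := ⟨⟨0, hQ⟩⟩
  let mix : (Fin m → R → Fin Q) → (Fin m → R → Fin Q) → (Fin m → R → Fin Q) :=
    fun y y' u r => if r ∈ W then y u r else y' u r
  have hinv : Function.Involutive
      (fun p : (Fin m → R → Fin Q) × (Fin m → R → Fin Q) => (mix p.1 p.2, mix p.2 p.1)) := by
    intro p
    refine Prod.ext ?_ ?_ <;> funext u r <;> by_cases hr : r ∈ W <;> simp [mix, hr]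
  rw [← pr_mul, ← pr_equiv hinv.toPerm, ← pr_fst (B := Fin m → R → Fin Q)]
  congr 1
  funext p
  have h1 : Y W (mix p.1 p.2) = Y W p.1 := by
    funext u r; by_cases hr : r ∈ W <;> simp [Y, mix, hr]
  have h2 : Y W' (mix p.2 p.1) = Y W' p.1 := by
    funext u r
    by_cases hr : r ∈ W'
    · simp [Y, mix, hr, hW r hr]
    · simp [Y, hr]
  simp only [Function.Involutive.coe_toPerm, h1, h2]

theorem hit {Q : ℕ} (hQ : 0 < Q) (g : Inp R m → Prop) (hg : Monotone g) (z : Inp R m) (s eps : ℝ)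
    (T : ℕ) (hs : s ≤ 1) (hT : (1 - s) ^ T < eps)
    (h : eps ≤ pr (fun y : Fin m → R → Fin Q => ¬ g (z ⊔ Y univ y))) :
    ∃ S : Finset R, S.card ≤ k * T ∧ ∀ W : Finset R, W.card ≤ k → Strong Q s g z W →
      ∃ r ∈ W, r ∈ S := by
  haveI : Nonempty (Fin Q) := ⟨⟨0, hQ⟩⟩
  by_contra hc
  push Not at hc
  have key : ∀ t, t ≤ T → ∃ S : Finset R, S.card ≤ k * t ∧
      pr (fun y : Fin m → R → Fin Q => ¬ g (z ⊔ Y S y)) ≤ (1 - s) ^ t := by
    intro t
    induction t with
    | zero => intro _; exact ⟨∅, by simp, by simpa using pr_le_one _⟩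
    | succ t ih =>
      intro ht
      obtain ⟨S, hS, hp⟩ := ih (by omega)
      obtain ⟨W, hW, hst, hd⟩ := hc S (hS.trans (Nat.mul_le_mul_left _ (by omega)))
      refine ⟨S ∪ W, (Finset.card_union_le _ _).trans (by rw [Nat.mul_succ]; omega), ?_⟩
      have h1 := indep hQ (fun x => ¬ g (z ⊔ x)) (fun x => ¬ g (z ⊔ x)) S W hd
      have h2 : pr (fun y : Fin m → R → Fin Q => ¬ g (z ⊔ Y W y)) ≤ 1 - s := by
        rw [pr_not]; unfold Strong at hst; linarith
      calc _ ≤ pr (fun y : Fin m → R → Fin Q => ¬ g (z ⊔ Y S y) ∧ ¬ g (z ⊔ Y W y)) :=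
            pr_mono fun y hy =>
              ⟨fun h' => hy (hg (sup_le_sup_left (Y_mono Finset.subset_union_left y) z) h'),
               fun h' => hy (hg (sup_le_sup_left (Y_mono Finset.subset_union_right y) z) h')⟩
        _ = _ := h1
        _ ≤ (1 - s) ^ t * (1 - s) :=
            mul_le_mul hp h2 (pr_nonneg _) (pow_nonneg (by linarith) _)
        _ = _ := by rw [pow_succ]
  obtain ⟨S, -, hp⟩ := key T le_rfl
  have : pr (fun y : Fin m → R → Fin Q => ¬ g (z ⊔ Y univ y)) ≤
      pr (fun y : Fin m → R → Fin Q => ¬ g (z ⊔ Y S y)) :=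
    pr_mono fun y hy h' => hy (hg (sup_le_sup_left (Y_mono (Finset.subset_univ _) y) z) h')
  linarith

theorem tree (E : (Fin k → R) → Prop) (s : ℕ)
    (h : ∀ C : Finset (Fin k), C ≠ univ → ∀ v0 : Fin k → R, ∃ S : Finset R, S.card ≤ s ∧
      ∀ v, E v → (∀ i ∈ C, v i = v0 i) → ∃ i, i ∉ C ∧ v i ∈ S) :
    ∀ (j : ℕ) (C : Finset (Fin k)) (v0 : Fin k → R), C.card + j = k →
      (univ.filter fun v => E v ∧ ∀ i ∈ C, v i = v0 i).card ≤ (k * s) ^ j := by
  intro j
  induction j with
  | zero =>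
    intro C v0 hC
    have : C = univ := Finset.eq_univ_of_card _ (by simpa using hC)
    subst this
    rw [pow_zero, Finset.card_le_one]
    intro a ha b hb
    simp only [Finset.mem_filter, Finset.mem_univ, true_and, forall_const] at ha hb
    funext i; rw [ha.2 i, hb.2 i]
  | succ j ih =>
    intro C v0 hC
    have hne : C ≠ univ := by
      intro h'; rw [h'] at hC; simp at hC
    obtain ⟨S, hS, hE⟩ := h C hne v0
    have hsub : (univ.filter fun v => E v ∧ ∀ i ∈ C, v i = v0 i) ⊆
        ((Cᶜ ×ˢ S).biUnion fun p => univ.filter fun v => E v ∧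
          ∀ i ∈ insert p.1 C, v i = Function.update v0 p.1 p.2 i) := by
      intro v hv
      simp only [Finset.mem_filter, Finset.mem_univ, true_and] at hv
      obtain ⟨i, hi, hiS⟩ := hE v hv.1 hv.2
      refine Finset.mem_biUnion.2 ⟨(i, v i), by simp [hi, hiS], ?_⟩
      simp only [Finset.mem_filter, Finset.mem_univ, true_and]
      refine ⟨hv.1, fun i' hi' => ?_⟩
      by_cases hii : i' = i
      · subst hii; simp
      · rw [Function.update_of_ne hii]
        exact hv.2 i' ((Finset.mem_insert.1 hi').resolve_left hii)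
    refine (Finset.card_le_card hsub).trans ?_
    refine (Finset.card_biUnion_le_card_mul _ _ ((k * s) ^ j) fun p hp => ?_).trans ?_
    · have hp1 : p.1 ∉ C := by simpa using (Finset.mem_product.1 hp).1
      exact ih _ _ (by rw [Finset.card_insert_of_notMem hp1]; omega)
    · rw [pow_succ, mul_comm, Finset.card_product]
      refine Nat.mul_le_mul_left _ (Nat.mul_le_mul ?_ hS)
      simpa using Finset.card_le_univ Cᶜ

end Pool.Agent.FS.MonoDom
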