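import Pool.Agent.FS.MonoDom.Core1

namespace Pool.Agent.FS.MonoDom
open Finset
open scoped BigOperators Classical
set_option linter.unusedSectionVars false
set_option linter.style.haveILetI false

variable {R : Type} [Fintype R] [DecidableEq R] {m k : ℕ}

def merge (C : Finset (Fin k)) (φ : Fin m → Fin k) (ψ : Fin m → {i : Fin k // i ∉ C}) :
    Fin m → Fin k := fun u => if φ u ∈ C then φ u else (ψ u).1

theorem X_merge (C : Finset (Fin k)) (v : Fin k → R) (φ : Fin m → Fin k) (ψ) :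
    X C v (merge C φ ψ) = X C v φ := by
  funext u r
  by_cases h : φ u ∈ C
  · simp [X, merge, h]
  · simp [X, merge, h, (ψ u).2]

theorem boost {Q c : ℕ} (hc : 1 ≤ c) (hQ : c * k ^ 2 ≤ Q) (g : Inp R m → Prop) (hg : Monotone g)
    (C J : Finset (Fin k)) (i0 : Fin k) (hC : i0 ∉ C) (hJ : i0 ∉ J) (v : Fin k → R)
    (φ : Fin m → Fin k) :
    pr (fun ψ => g (X (C ∪ J) v (merge C φ ψ))) ≤
      pr (fun y : Fin m → R → Fin Q => g (X C v φ ⊔ Y (J.image v) y)) ^ c := by
  have hk : 0 < k := Fin.pos i0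
  have hQ0 : 0 < Q := lt_of_lt_of_le (by positivity) hQ
  haveI : Nonempty (Fin Q) := ⟨⟨0, hQ0⟩⟩
  haveI : Nonempty {i : Fin k // i ∉ C} := ⟨⟨i0, hC⟩⟩
  have hkR : (0:ℝ) < k := by exact_mod_cast hk
  have hQR : (0:ℝ) < Q := by exact_mod_cast hQ0
  have hQR' : (c:ℝ) * k ^ 2 ≤ Q := by exact_mod_cast hQ
  have hcR : (1:ℝ) ≤ c := by exact_mod_cast hc
  have hk1 : (1:ℝ) ≤ k := by exact_mod_cast hk
  have hkQ : (k:ℝ) / Q ≤ 1 := by
    rw [div_le_one hQR]; nlinarith
  have T := tensor (A := {i : Fin k // i ∉ C}) (B := R → Fin Q) (P := R → Prop) c m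
    (fun u a r => φ u ∉ C ∧ a.1 ∈ J ∧ v a.1 = r) (fun _ b r => r ∈ J.image v ∧ (b r).val ≠ 0)
    (fun u => column c _ _ ⊥ (fun r => r ∈ J.image v) (1 - k / Q) (1 - 1 / k) (by linarith) ?_ ?_ ?_
      (fun _ => bot_le) ?_ bot_le)
    (fun p => if g (X C v φ ⊔ p) then (1:ℝ) else 0) ?_ ?_
  · refine le_trans (le_of_eq ?_) T
    unfold pr
    refine Finset.expect_congr rfl fun ψ _ => ?_
    have : X (C ∪ J) v (merge C φ ψ) =
        X C v φ ⊔ fun u r => φ u ∉ C ∧ (ψ u).1 ∈ J ∧ v (ψ u).1 = r := by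
      funext u r
      by_cases h : φ u ∈ C
      · simp [X, merge, h]
      · simp [X, merge, h, (ψ u).2]
    beta_reduce
    rw [this]
    split_ifs
    · simp
    · rw [zero_pow (by omega)]
  · have h1 := one_add_mul_le_pow (a := -((k:ℝ) / Q)) (by linarith) c
    have h2 : (c:ℝ) * (k / Q) ≤ 1 / k := by
      rw [← mul_div_assoc, div_le_div_iff₀ hQR hkR]; nlinarith
    rw [← sub_eq_add_neg] at h1
    linarith
  · rintro a r ⟨-, h1, h2⟩
    exact Finset.mem_image.2 ⟨_, h1, h2⟩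
  · refine (pr_mono (P' := fun a => ¬ a = ⟨i0, hC⟩) ?_).trans ?_
    · rintro a ha rfl
      exact ha fun r hr => hJ hr.2.1
    · rw [pr_not, pr_point]
      have h1 : (Fintype.card {i : Fin k // i ∉ C} : ℝ) ≤ k := by
        exact_mod_cast (Fintype.card_subtype_le _).trans (by simp)
      have h2 : (0:ℝ) < Fintype.card {i : Fin k // i ∉ C} := by exact_mod_cast Fintype.card_pos
      have := one_div_le_one_div_of_le h2 h1
      linarith
  · have h1 : pr (fun b : R → Fin Q => ∃ r ∈ J.image v, b r = ⟨0, hQ0⟩) ≤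
        (J.image v).card * (1 / (Q:ℝ)) :=
      pr_union _ _ _ fun r _ => by
        rw [pr_coord r (fun a : Fin Q => a = ⟨0, hQ0⟩), pr_point]; simp
    have h2 : ((J.image v).card : ℝ) ≤ k := by
      exact_mod_cast Finset.card_image_le.trans (by simpa using Finset.card_le_univ J)
    have h3 : ((J.image v).card : ℝ) * (1 / Q) ≤ k / Q := by
      rw [mul_one_div]; gcongr
    have h4 := pr_not (fun b : R → Fin Q => ∃ r ∈ J.image v, b r = ⟨0, hQ0⟩)
    refine le_trans (by linarith) (le_trans h4.ge (pr_mono ?_))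
    intro b hb r hr
    exact ⟨hr, fun h0 => hb ⟨r, hr, Fin.ext h0⟩⟩
  · intro p q hpq
    by_cases h : g (X C v φ ⊔ p)
    · have := hg (sup_le_sup_left hpq _) h
      simp [h, this]
    · simp only [h, if_false]; split_ifs <;> norm_num
  · intro p; split_ifs <;> norm_num

theorem mono_lt {a : Inp R m → ℝ} (ha : Monotone a) (r : ℝ) : Monotone (fun x => r < a x) :=
  fun _ _ h h' => lt_of_lt_of_le h' (ha h)

theorem bad_one {Q c : ℕ} (hc : 1 ≤ c) (hQ : c * k ^ 2 ≤ Q) (s : ℝ) (hs : 0 < s)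
    (g : Inp R m → ℝ) (hg : Monotone g)
    (C J : Finset (Fin k)) (i0 : Fin k) (hC : i0 ∉ C) (hJ : i0 ∉ J) (v : Fin k → R) :
    pr (fun φ : Fin m → Fin k => g (X C v φ) < g (X (C ∪ J) v φ) ∧
      ¬ Strong Q s (fun x => g (X C v φ) < g x) (X C v φ) (J.image v)) ≤ s ^ c := by
  haveI : Nonempty {i : Fin k // i ∉ C} := ⟨⟨i0, hC⟩⟩
  have hinv : Function.Involutive
      (fun p : (Fin m → Fin k) × (Fin m → {i : Fin k // i ∉ C}) =>
        (merge C p.1 p.2, fun u => if h : p.1 u ∈ C then p.2 u else ⟨p.1 u, h⟩)) := by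
    intro p
    refine Prod.ext ?_ ?_ <;> funext u <;> by_cases h : p.1 u ∈ C <;> simp [merge, h, (p.2 u).2]
  rw [← pr_fst (B := Fin m → {i : Fin k // i ∉ C}), ← pr_equiv hinv.toPerm]
  refine pr_prod_le _ _ (by positivity) fun φ => ?_
  simp only [Function.Involutive.coe_toPerm, X_merge]
  by_cases hst : Strong Q s (fun x => g (X C v φ) < g x) (X C v φ) (J.image v)
  · simp only [hst, not_true, and_false, pr_false]; positivity
  · simp only [hst, not_false_iff, and_true]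
    refine (boost hc hQ (fun x => g (X C v φ) < g x) (mono_lt hg _) C J i0 hC hJ v φ).trans ?_
    unfold Strong at hst
    exact pow_le_pow_left₀ (pr_nonneg _) (not_le.1 hst).le _

/-- the test `(v, φ)` is bad for `g` -/
def Bad (Q : ℕ) (s : ℝ) (g : Inp R m → ℝ) (t : (Fin k → R) × (Fin m → Fin k)) : Prop :=
  ∃ p ∈ (univ.filter fun p : Finset (Fin k) × Finset (Fin k) => p.1 ∪ p.2 ≠ univ),
    g (X p.1 t.1 t.2) < g (X (p.1 ∪ p.2) t.1 t.2) ∧
      ¬ Strong Q s (fun x => g (X p.1 t.1 t.2) < g x) (X p.1 t.1 t.2) (p.2.image t.1)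

theorem card_pairs : (Fintype.card (Finset (Fin k) × Finset (Fin k)) : ℝ) = 4 ^ k := by
  simp only [Fintype.card_prod, Fintype.card_finset, Fintype.card_fin]
  push_cast
  rw [← mul_pow]; norm_num

theorem bad_le {Q c : ℕ} (hc : 1 ≤ c) (hQ : c * k ^ 2 ≤ Q) (s : ℝ) (hs : 0 < s)
    (g : Inp R m → ℝ) (hg : Monotone g) : pr (Bad (k := k) Q s g) ≤ 4 ^ k * s ^ c := by
  refine (pr_union _ _ (s ^ c) fun p hp => ?_).trans ?_
  · have hp' : p.1 ∪ p.2 ≠ univ := (Finset.mem_filter.1 hp).2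
    obtain ⟨i0, hi0⟩ : ∃ i0, i0 ∉ p.1 ∪ p.2 := by
      by_contra h; push Not at h; exact hp' (Finset.eq_univ_of_forall h)
    rw [Finset.mem_union, not_or] at hi0
    exact pr_prod_le _ _ (by positivity) fun v => bad_one hc hQ s hs g hg _ _ i0 hi0.1 hi0.2 v
  · rw [← card_pairs]
    gcongr
    exact_mod_cast Finset.card_le_univ _

def Closed (k Q : ℕ) (eps : ℝ) (g : Inp R m → ℝ) : Prop :=
  ∀ (I : Finset (Fin k)), I ≠ univ → ∀ (v : Fin k → R) (φ : Fin m → Fin k),
    eps ≤ pr (fun y : Fin m → R → Fin Q => ¬ g (X I v φ) < g (X I v φ ⊔ Y univ y))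

def Gen (k : ℕ) (g : Inp R m → ℝ) : Prop :=
  ∀ (v : Fin k → R), Function.Injective v → ∀ (φ : Fin m → Fin k),
    ∃ I, I ≠ univ ∧ g (X univ v φ) ≤ g (X I v φ)

def GenP (k : ℕ) (g : Inp R m → Prop) : Prop :=
  ∀ (v : Fin k → R), Function.Injective v → ∀ (φ : Fin m → Fin k), g (X univ v φ) →
    ∃ I, I ≠ univ ∧ g (X I v φ)

theorem X_le_erase (I : Finset (Fin k)) (hI : I ≠ univ) (v' v : Fin k → R) (φ' φ : Fin m → Fin k)
    (hv : Function.Injective v) (h : X I v' φ' ≤ X univ v φ) :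
    ∃ J, J ≠ univ ∧ X I v' φ' ≤ X J v φ := by
  have h1 : (I.image v').card < (univ.image v).card := by
    rw [Finset.card_image_of_injective _ hv]
    exact Finset.card_image_le.trans_lt (Finset.card_lt_card (Finset.ssubset_univ_iff.2 hI))
  obtain ⟨r, hr, hr'⟩ := Finset.exists_mem_notMem_of_card_lt_card h1
  obtain ⟨i, -, rfl⟩ := Finset.mem_image.1 hr
  refine ⟨univ.erase i, fun h' => by simpa using Finset.eq_univ_iff_forall.1 h' i, ?_⟩
  intro u r hx
  have h2 := h u r hx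
  refine ⟨Finset.mem_erase.2 ⟨fun h3 => hr' ?_, Finset.mem_univ _⟩, h2.2⟩
  exact Finset.mem_image.2 ⟨_, hx.1, by rw [hx.2, ← h2.2, h3]⟩

theorem closure_aux {Q : ℕ} (hQ : 0 < Q) (eps : ℝ) (he : 0 ≤ eps) (he1 : eps ≤ 1) (V : Finset ℝ) :
    ∀ (j : ℕ) (g : Inp R m → ℝ), Monotone g → Gen k g → (∀ x, g x ∈ V) →
    (((univ : Finset (Finset (Fin k) × (Fin k → R) × (Fin m → Fin k))) ×ˢ V).filter fun t =>
      g (X t.1.1 t.1.2.1 t.1.2.2) < t.2).card ≤ j →
    ∃ g' : Inp R m → ℝ, Monotone g' ∧ Gen k g' ∧ Closed k Q eps g' ∧ (∀ x, g x ≤ g' x) ∧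
      pr (fun y : Fin m → R → Fin Q => g (Y univ y) < g' (Y univ y)) ≤ j * eps := by
  haveI : Nonempty (Fin Q) := ⟨⟨0, hQ⟩⟩
  have hex : ∀ (g : Inp R m → ℝ) (z : Inp R m),
      pr (fun y : Fin m → R → Fin Q => ¬ g z < g (z ⊔ Y univ y)) < eps → ∃ x, g z < g x := by
    intro g z h
    by_contra hn
    have : pr (fun _ : Fin m → R → Fin Q => True) ≤
        pr (fun y : Fin m → R → Fin Q => ¬ g z < g (z ⊔ Y univ y)) :=
      pr_mono fun y _ h' => hn ⟨_, h'⟩
    rw [pr_true] at this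
    linarith
  intro j
  induction j with
  | zero =>
    intro g hg hG hV hj
    refine ⟨g, hg, hG, fun I _ v φ => ?_, fun _ => le_rfl, by simp [pr_false]⟩
    by_contra h
    obtain ⟨x, hx⟩ := hex g _ (not_le.1 h)
    have := Finset.card_eq_zero.1 (Nat.le_zero.1 hj)
    exact Finset.filter_eq_empty_iff.1 this
      (Finset.mem_product.2 ⟨Finset.mem_univ (I, v, φ), hV x⟩ : ((I, v, φ), g x) ∈ _) hx
  | succ j ih =>
    intro g hg hG hV hj
    by_cases hcl : Closed k Q eps g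
    · exact ⟨g, hg, hG, hcl, fun _ => le_rfl, by simp only [lt_irrefl, pr_false]; positivity⟩
    unfold Closed at hcl
    simp only [not_forall, not_le] at hcl
    obtain ⟨I, hI, v, φ, hp⟩ := hcl
    obtain ⟨x0, hx0⟩ := hex g _ hp
    obtain ⟨θ, hθ, hmin⟩ := Finset.exists_min_image (V.filter fun r => g (X I v φ) < r) id
      ⟨g x0, Finset.mem_filter.2 ⟨hV x0, hx0⟩⟩
    obtain ⟨hθV, hθ⟩ := Finset.mem_filter.1 hθ
    have hle : ∀ x, g x ≤ if X I v φ ≤ x then max (g x) θ else g x := fun x => by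
      split_ifs
      · exact le_max_left _ _
      · exact le_rfl
    obtain ⟨g', h1, h2, h3, h4, h5⟩ := ih (fun x => if X I v φ ≤ x then max (g x) θ else g x)
      (fun a b hab => by
        by_cases h : X I v φ ≤ a
        · simp only [h, h.trans hab, if_true]; exact max_le_max (hg hab) le_rfl
        · simp only [h, if_false]; exact (hg hab).trans (hle b))
      (fun v' hv' φ' => by
        obtain ⟨J, hJ, h⟩ := hG v' hv' φ'
        by_cases hz : X I v φ ≤ X univ v' φ'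
        · rcases le_total θ (g (X univ v' φ')) with e | e
          · refine ⟨J, hJ, ?_⟩
            simp only [hz, if_true, max_eq_left e]
            exact h.trans (hle _)
          · obtain ⟨J', hJ', h'⟩ := X_le_erase I hI v v' φ φ' hv' hz
            refine ⟨J', hJ', ?_⟩
            simp only [hz, h', if_true, max_eq_right e]
            exact le_max_right _ _
        · refine ⟨J, hJ, ?_⟩
          simp only [hz, if_false]
          exact h.trans (hle _))
      (fun x => by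
        split_ifs
        · rcases le_total θ (g x) with e | e
          · rw [max_eq_left e]; exact hV x
          · rw [max_eq_right e]; exact hθV
        · exact hV x)
      (by
        refine Nat.le_of_lt_succ (lt_of_lt_of_le (Finset.card_lt_card ⟨?_, ?_⟩) hj)
        · intro t ht
          rw [Finset.mem_filter] at ht ⊢
          exact ⟨ht.1, lt_of_le_of_lt (hle _) ht.2⟩
        · intro hsub
          have := hsub (Finset.mem_filter.2
            ⟨(Finset.mem_product.2 ⟨Finset.mem_univ (I, v, φ), hθV⟩ : ((I, v, φ), θ) ∈ _), hθ⟩)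
          have h2 := (Finset.mem_filter.1 this).2
          simp at h2)
    refine ⟨g', h1, h2, h3, fun x => (hle x).trans (h4 x), ?_⟩
    refine le_trans (pr_mono ?_) ((pr_or _ _).trans (add_le_add h5 hp.le)) |>.trans
      (le_of_eq (by push_cast; ring))
    intro y hy
    by_cases h : X I v φ ≤ Y univ y
    · by_cases e : θ ≤ g (Y univ y)
      · left; simp only [h, if_true, max_eq_left e]; exact hy
      · right; rw [sup_eq_right.2 h]
        exact fun e' => e (hmin _ (Finset.mem_filter.2 ⟨hV _, e'⟩))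
    · left; simp only [h, if_false]; exact hy

/-- trim, then close -/
theorem closure {Q : ℕ} (hQ : 0 < Q) (eps : ℝ) (he : 0 ≤ eps) (he1 : eps ≤ 1) (hk : 2 ≤ k)
    [Nonempty R] (f : Inp R m → ℝ) (hf : Monotone f) :
    ∃ g' : Inp R m → ℝ, Monotone g' ∧ Gen k g' ∧ Closed k Q eps g' ∧
      (∀ (I : Finset (Fin k)) v φ x, I ≠ univ → X I v φ ≤ x → f (X I v φ) ≤ g' x) ∧
      pr (fun y : Fin m → R → Fin Q => f (Y univ y) < g' (Y univ y)) ≤
        ((2:ℝ) ^ k * (Fintype.card R : ℝ) ^ k * (k:ℝ) ^ m) ^ 2 * eps := by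
  have hE : (∅ : Finset (Fin k)) ≠ univ := fun h => by
    have := congrArg Finset.card h; simp at this; omega
  have htr : ∀ x : Inp R m, ∃ τ : Finset (Fin k) × (Fin k → R) × (Fin m → Fin k),
      (τ.1 ≠ univ ∧ X τ.1 τ.2.1 τ.2.2 ≤ x) ∧ ∀ (I : Finset (Fin k)) v φ, I ≠ univ → X I v φ ≤ x →
        f (X I v φ) ≤ f (X τ.1 τ.2.1 τ.2.2) := by
    intro x
    obtain ⟨τ, hτ, hmax⟩ := Finset.exists_max_image
      (univ.filter fun τ : Finset (Fin k) × (Fin k → R) × (Fin m → Fin k) =>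
        τ.1 ≠ univ ∧ X τ.1 τ.2.1 τ.2.2 ≤ x) (fun τ => f (X τ.1 τ.2.1 τ.2.2))
      ⟨(∅, fun _ => Classical.arbitrary R, fun _ => ⟨0, by omega⟩), Finset.mem_filter.2
        ⟨Finset.mem_univ _, hE, fun u r h => by simp [X] at h⟩⟩
    exact ⟨τ, (Finset.mem_filter.1 hτ).2, fun I v φ h1 h2 =>
      hmax (I, v, φ) (Finset.mem_filter.2 ⟨Finset.mem_univ _, h1, h2⟩)⟩
  choose τ h1 h2 using htr
  obtain ⟨g', a1, a2, a3, a4, a5⟩ := closure_aux (k := k) hQ eps he he1
    (univ.image fun t : Finset (Fin k) × (Fin k → R) × (Fin m → Fin k) => f (X t.1 t.2.1 t.2.2)) _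
    (fun x => f (X (τ x).1 (τ x).2.1 (τ x).2.2))
    (fun x y hxy => h2 y _ _ _ (h1 x).1 ((h1 x).2.trans hxy))
    (fun v hv φ => by
      obtain ⟨J, hJ, h⟩ := X_le_erase _ (h1 (X univ v φ)).1 _ v _ φ hv (h1 _).2
      exact ⟨J, hJ, h2 _ _ _ _ (h1 _).1 h⟩)
    (fun x => Finset.mem_image.2 ⟨τ x, Finset.mem_univ _, rfl⟩) le_rfl
  refine ⟨g', a1, a2, a3, fun I v φ x hI hx => (h2 x I v φ hI hx).trans (a4 x), ?_⟩
  refine le_trans (pr_mono fun y hy => lt_of_le_of_lt (hf (h1 _).2) hy) (a5.trans ?_)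
  refine mul_le_mul_of_nonneg_right ?_ he
  have hc : ((2:ℝ) ^ k * (Fintype.card R : ℝ) ^ k * (k:ℝ) ^ m) =
      (Fintype.card (Finset (Fin k) × (Fin k → R) × (Fin m → Fin k)) : ℕ) := by simp [mul_assoc]
  rw [hc, ← Nat.cast_pow, sq]
  refine Nat.cast_le.2 ((Finset.card_filter_le _ _).trans ?_)
  rw [Finset.card_product]
  exact Nat.mul_le_mul le_rfl Finset.card_image_le

end Pool.Agent.FS.MonoDom
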