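import Mathlib

/-! Monotone real circuits (straight-line programs whose gates are arbitrary nondecreasing real
functions of two arguments) and dominating sets. -/

namespace Pool.Agent.FS.MonoDom

/-- A node of a monotone real circuit: an input variable, a real constant, or a nondecreasing
function `f` of two earlier nodes (`a` refers to the node `a + 1` places earlier). -/
inductive Gate (ι : Type) where
  | var (i : ι)
  | const (r : ℝ)
  | op (f : ℝ × ℝ →o ℝ) (a b : ℕ)

open Classical in
/-- Value of a node, given the input and the values of the earlier nodes (latest first). -/
noncomputable def step {ι : Type} (x : ι → Prop) (vals : List ℝ) : Gate ι → ℝ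
  | .var i => if x i then 1 else 0
  | .const r => r
  | .op f a b => f (vals.getD a 0, vals.getD b 0)

/-- Values of all nodes of a circuit, a list of nodes with the latest node first. -/
noncomputable def run {ι : Type} (x : ι → Prop) : List (Gate ι) → List ℝ
  | [] => []
  | g :: gs => step x (run x gs) g :: run x gs

/-- The circuit accepts `x` if the value of its latest node is positive. -/
def Accepts {ι : Type} (C : List (Gate ι)) (x : ι → Prop) : Prop := 0 < (run x C).getD 0 0

/-- Every vertex lies in `D` or has a neighbour in `D`. -/
def Dominating {n : ℕ} (G : SimpleGraph (Fin n)) (D : Finset (Fin n)) : Prop :=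
  ∀ v, v ∈ D ∨ ∃ u ∈ D, G.Adj u v

end Pool.Agent.FS.MonoDom
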