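import Pool.Agent.FS.MonoDom.Core2
import Pool.Agent.FS.MonoDom.Defs

namespace Pool.Agent.FS.MonoDom
open Finset
open scoped BigOperators Classical
set_option linter.unusedSectionVars false
set_option linter.style.haveILetI false

variable {R : Type} [Fintype R] [DecidableEq R] {m k : ℕ}

theorem X_mono {I J : Finset (Fin k)} (h : I ⊆ J) (v : Fin k → R) (φ : Fin m → Fin k) :
    X I v φ ≤ X J v φ := fun _ _ hr => ⟨h hr.1, hr.2⟩

theorem X_congr {I : Finset (Fin k)} {v v' : Fin k → R} (h : ∀ i ∈ I, v i = v' i)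
    (φ : Fin m → Fin k) : X I v φ = X I v' φ := by
  funext u r
  by_cases hu : φ u ∈ I
  · simp [X, hu, h _ hu]
  · simp [X, hu]

/-- `I` is a minimal proper set of rows of the test on which `g` reaches its value -/
def MinI (g : Inp R m → ℝ) (I : Finset (Fin k)) (v : Fin k → R) (φ : Fin m → Fin k) : Prop :=
  I ≠ univ ∧ g (X univ v φ) ≤ g (X I v φ) ∧ ∀ J, J ⊂ I → ¬ g (X univ v φ) ≤ g (X J v φ)

theorem exists_minI (g : Inp R m → ℝ) (v : Fin k → R) (φ : Fin m → Fin k) (I : Finset (Fin k))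
    (hI : I ≠ univ) (h : g (X univ v φ) ≤ g (X I v φ)) : ∃ J, MinI g J v φ := by
  obtain ⟨J, hJ, hmin⟩ := Finset.exists_min_image
    (univ.filter fun J : Finset (Fin k) => J ≠ univ ∧ g (X univ v φ) ≤ g (X J v φ)) Finset.card
    ⟨I, Finset.mem_filter.2 ⟨Finset.mem_univ _, hI, h⟩⟩
  simp only [Finset.mem_filter, Finset.mem_univ, true_and] at hJ hmin
  refine ⟨J, hJ.1, hJ.2, fun J' hJ' hg => ?_⟩
  have h1 : J' ≠ univ := fun h' => hJ'.not_subset (h' ▸ Finset.subset_univ _)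
  have := hmin J' ⟨h1, hg⟩
  have := Finset.card_lt_card hJ'
  omega

section
variable {Q T : ℕ} {s eps : ℝ}

/-- one branching step -/
theorem branch (hQ : 0 < Q) (hs : s ≤ 1) (hT : (1 - s) ^ T < eps) (g : Inp R m → ℝ)
    (hg : Monotone g) (hcl : Closed k Q eps g) (φ : Fin m → Fin k) (I C : Finset (Fin k))
    (hIC : ¬ I ⊆ C) (v0 : Fin k → R) :
    ∃ S : Finset R, S.card ≤ k * T ∧ ∀ v, MinI g I v φ → ¬ Bad Q s g (v, φ) →
      (∀ i ∈ C, v i = v0 i) → ∃ i, i ∉ C ∧ v i ∈ S := by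
  have hss : I ∩ C ⊂ I := Finset.ssubset_iff_subset_ne.2
    ⟨Finset.inter_subset_left, fun h => hIC (Finset.inter_eq_left.1 h)⟩
  have hne : I ∩ C ≠ univ := fun h' => hss.not_subset (h' ▸ Finset.subset_univ _)
  obtain ⟨S, hS, hW⟩ := hit (k := k) hQ (fun x => g (X (I ∩ C) v0 φ) < g x) (mono_lt hg _)
    (X (I ∩ C) v0 φ) s eps T hs hT (hcl _ hne v0 φ)
  refine ⟨S, hS, fun v hv hb hC => ?_⟩
  have hU : I ∩ C ∪ I \ C = I := by
    ext i; by_cases h1 : i ∈ I <;> by_cases h2 : i ∈ C <;> simp [h1, h2]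
  have hst : Strong Q s (fun x => g (X (I ∩ C) v φ) < g x) (X (I ∩ C) v φ) ((I \ C).image v) := by
    by_contra hn
    exact hb ⟨(I ∩ C, I \ C), by simp only [Finset.mem_filter, Finset.mem_univ, true_and, hU]; exact hv.1,
      by simp only [hU]; exact (not_le.1 (hv.2.2 _ hss)).trans_le hv.2.1, hn⟩
  rw [X_congr (v' := v0) fun i hi => hC i (Finset.mem_inter.1 hi).2] at hst
  obtain ⟨r, hr, hrS⟩ := hW _
    (Finset.card_image_le.trans (by simpa using Finset.card_le_univ (I \ C))) hst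
  obtain ⟨i, hi, rfl⟩ := Finset.mem_image.1 hr
  exact ⟨i, (Finset.mem_sdiff.1 hi).2, hrS⟩

theorem op_err {c : ℕ} (hc : 1 ≤ c) (hcQ : c * k ^ 2 ≤ Q) (hQ : 0 < Q) (hs0 : 0 < s) (hs : s ≤ 1)
    (hT : (1 - s) ^ T < eps) (g h : Inp R m → ℝ) (hg : Monotone g) (hh : Monotone h)
    (cg : Closed k Q eps g) (ch : Closed k Q eps h) (gg : Gen k g) (gh : Gen k h) :
    pr (fun t : (Fin k → R) × (Fin m → Fin k) => Function.Injective t.1 ∧
      ∀ I, I ≠ univ → ¬ (g (X univ t.1 t.2) ≤ g (X I t.1 t.2) ∧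
        h (X univ t.1 t.2) ≤ h (X I t.1 t.2))) ≤
      2 * 4 ^ k * s ^ c + 4 ^ k * (((k:ℝ) * (k * T)) ^ k / (Fintype.card R : ℝ) ^ k) := by
  have b1 := bad_le (k := k) hc hcQ s hs0 g hg
  have b2 := bad_le (k := k) hc hcQ s hs0 h hh
  have b3 : pr (fun t : (Fin k → R) × (Fin m → Fin k) =>
      ∃ p ∈ (univ.filter fun p : Finset (Fin k) × Finset (Fin k) => p.1 ∪ p.2 = univ),
        (MinI g p.1 t.1 t.2 ∧ ¬ Bad Q s g t) ∧ (MinI h p.2 t.1 t.2 ∧ ¬ Bad Q s h t)) ≤
      4 ^ k * (((k:ℝ) * (k * T)) ^ k / (Fintype.card R : ℝ) ^ k) := by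
    refine (pr_union _ _ (((k:ℝ) * (k * T)) ^ k / (Fintype.card R : ℝ) ^ k) fun p hp => ?_).trans ?_
    · have hp' : p.1 ∪ p.2 = univ := (Finset.mem_filter.1 hp).2
      refine pr_prod_le' _ _ (by positivity) fun φ => ?_
      have := tree (fun v => (MinI g p.1 v φ ∧ ¬ Bad Q s g (v, φ)) ∧
          (MinI h p.2 v φ ∧ ¬ Bad Q s h (v, φ))) (k * T) (fun C hC v0 => by
        by_cases h1 : p.1 ⊆ C
        · have h2 : ¬ p.2 ⊆ C := fun h2 =>
            hC (Finset.univ_subset_iff.1 (hp' ▸ Finset.union_subset h1 h2))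
          obtain ⟨S, hS, hv⟩ := branch hQ hs hT h hh ch φ p.2 C h2 v0
          exact ⟨S, hS, fun v e a => hv v e.2.1 e.2.2 a⟩
        · obtain ⟨S, hS, hv⟩ := branch hQ hs hT g hg cg φ p.1 C h1 v0
          exact ⟨S, hS, fun v e a => hv v e.1.1 e.1.2 a⟩) k ∅
      rcases isEmpty_or_nonempty (Fin k → R) with he | ⟨⟨v0⟩⟩
      · simp only [pr, Finset.univ_eq_empty, Finset.expect_empty]; positivity
      have h3 := this v0 (by simp)
      rw [pr_eq_card]
      simp only [Fintype.card_pi, Finset.prod_const, Finset.card_univ, Fintype.card_fin, Nat.cast_pow]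
      refine div_le_div_of_nonneg_right ?_ (by positivity)
      have h4 : ((((k * (k * T)) ^ k : ℕ)) : ℝ) = ((k:ℝ) * (k * T)) ^ k := by push_cast; rfl
      rw [← h4]
      refine Nat.cast_le.2 (le_trans (Finset.card_le_card fun v hv => ?_) h3)
      simp only [Finset.mem_filter, Finset.mem_univ, true_and] at hv ⊢
      exact ⟨hv, by simp⟩
    · rw [← card_pairs]
      gcongr
      exact_mod_cast Finset.card_le_univ _
  refine le_trans (pr_mono ?_) ((pr_or _ _).trans ((add_le_add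
    ((pr_or _ _).trans (add_le_add b1 b2)) b3).trans (le_of_eq (by ring))))
  rintro t ⟨hi, h3⟩
  by_cases e1 : Bad Q s g t
  · exact Or.inl (Or.inl e1)
  by_cases e2 : Bad Q s h t
  · exact Or.inl (Or.inr e2)
  obtain ⟨I, hI, hI'⟩ := gg _ hi t.2
  obtain ⟨J, hJ, hJ'⟩ := gh _ hi t.2
  obtain ⟨I, hI⟩ := exists_minI g _ _ I hI hI'
  obtain ⟨J, hJ⟩ := exists_minI h _ _ J hJ hJ'
  refine Or.inr ⟨(I, J), Finset.mem_filter.2 ⟨Finset.mem_univ _, ?_⟩, ⟨hI, e1⟩, hJ, e2⟩
  by_contra hne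
  exact h3 _ hne ⟨hI.2.1.trans (hg (X_mono Finset.subset_union_left _ _)),
    hJ.2.1.trans (hh (X_mono Finset.subset_union_right _ _))⟩

/-- good approximators -/
def Good (k Q : ℕ) (eps : ℝ) (g : Inp R m → ℝ) : Prop :=
  Monotone g ∧ Gen k g ∧ Closed k Q eps g

theorem approx {ι : Type} {c : ℕ} (hc : 1 ≤ c) (hcQ : c * k ^ 2 ≤ Q) (hQ : 0 < Q) (hs0 : 0 < s)
    (hs : s ≤ 1) (hT : (1 - s) ^ T < eps) (he0 : 0 < eps) (he : eps ≤ 1) (hk : 2 ≤ k) [Nonempty R]
    (σ : ι → Inp R m → Prop) (hσ : ∀ i, Monotone (σ i) ∧ GenP k (σ i)) (C : List (Gate ι)) :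
    ∃ (A : ℕ → Inp R m → ℝ) (P : (Fin k → R) × (Fin m → Fin k) → Prop)
      (N : (Fin m → R → Fin Q) → Prop), (∀ a, Good k Q eps (A a)) ∧
      pr P ≤ C.length *
        (2 * 4 ^ k * s ^ c + 4 ^ k * (((k:ℝ) * (k * T)) ^ k / (Fintype.card R : ℝ) ^ k)) ∧
      pr N ≤ C.length * (((2:ℝ) ^ k * (Fintype.card R : ℝ) ^ k * (k:ℝ) ^ m) ^ 2 * eps) ∧
      (∀ a t, Function.Injective t.1 → ¬ P t →
        (run (fun i => σ i (X univ t.1 t.2)) C).getD a 0 ≤ A a (X univ t.1 t.2)) ∧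
      (∀ a y, ¬ N y → A a (Y univ y) ≤ (run (fun i => σ i (Y univ y)) C).getD a 0) := by
  haveI : Nonempty (Fin Q) := ⟨⟨0, hQ⟩⟩
  have hE : (∅ : Finset (Fin k)) ≠ univ := fun h => by
    have := congrArg Finset.card h; simp at this; omega
  induction C with
  | nil =>
    refine ⟨fun _ _ => 0, fun _ => False, fun _ => False, fun _ => ⟨monotone_const,
      fun _ _ _ => ⟨∅, hE, le_rfl⟩, fun _ _ _ _ => ?_⟩, by simp [pr_false], by simp [pr_false],
      by simp [run], by simp [run]⟩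
    simp only [lt_irrefl, not_false_iff, pr_true]; exact he
  | cons G C ih =>
    obtain ⟨A, P, N, hA, hP, hN, h1, h2⟩ := ih
    set η := 2 * 4 ^ k * s ^ c + 4 ^ k * (((k:ℝ) * (k * T)) ^ k / (Fintype.card R : ℝ) ^ k) with hη
    have hη0 : 0 ≤ η := by positivity
    have key : ∃ (f : Inp R m → ℝ) (P' : (Fin k → R) × (Fin m → Fin k) → Prop), Monotone f ∧
        pr P' ≤ η ∧
        (∀ t, Function.Injective t.1 → ¬ P t → ¬ P' t → ∃ I, I ≠ univ ∧
          step (fun i => σ i (X univ t.1 t.2))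
          (run (fun i => σ i (X univ t.1 t.2)) C) G ≤ f (X I t.1 t.2)) ∧
        (∀ y, ¬ N y → f (Y univ y) ≤ step (fun i => σ i (Y univ y))
          (run (fun i => σ i (Y univ y)) C) G) := by
      cases G with
      | var i =>
        refine ⟨fun x => if σ i x then 1 else 0, fun _ => False, fun x y hxy => ?_,
          by rwa [pr_false], fun t ht _ _ => ?_, fun _ _ => le_rfl⟩
        · by_cases h : σ i x
          · simp [h, (hσ i).1 hxy h]
          · simp only [h, if_false]; split_ifs <;> norm_num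
        · by_cases h : σ i (X univ t.1 t.2)
          · obtain ⟨I, hI, h'⟩ := (hσ i).2 _ ht _ h
            exact ⟨I, hI, by simp [step, h, h']⟩
          · refine ⟨∅, hE, ?_⟩
            simp only [step, h, if_false]; split_ifs <;> norm_num
      | const r => exact ⟨fun _ => r, fun _ => False, monotone_const, by rwa [pr_false],
          fun _ _ _ _ => ⟨∅, hE, le_rfl⟩, fun _ _ => le_rfl⟩
      | op F a b =>
        refine ⟨fun x => F (A a x, A b x), _,
          fun x y hxy => F.mono (Prod.mk_le_mk.2 ⟨(hA a).1 hxy, (hA b).1 hxy⟩),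
          op_err hc hcQ hQ hs0 hs hT (A a) (A b) (hA a).1 (hA b).1 (hA a).2.2 (hA b).2.2
            (hA a).2.1 (hA b).2.1, ?_,
          fun y hy => F.mono (Prod.mk_le_mk.2 ⟨h2 a y hy, h2 b y hy⟩)⟩
        intro t ht hp hp'
        by_contra hn
        exact hp' ⟨ht, fun I hI e => hn ⟨I, hI, F.mono (Prod.mk_le_mk.2
          ⟨(h1 a t ht hp).trans e.1, (h1 b t ht hp).trans e.2⟩)⟩⟩
    obtain ⟨f, P', f1, f3, f4, f5⟩ := key
    obtain ⟨g, g1, g2, g3, g4, g5⟩ := closure (k := k) hQ eps he0.le he hk f f1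
    refine ⟨fun a => Nat.casesOn a g A, fun t => P t ∨ P' t,
      fun y => N y ∨ f (Y univ y) < g (Y univ y), ?_, ?_, ?_, ?_, ?_⟩
    · rintro (_ | a)
      · exact ⟨g1, g2, g3⟩
      · exact hA a
    · refine (pr_or _ _).trans ((add_le_add hP f3).trans (le_of_eq ?_))
      rw [List.length_cons]; push_cast; ring
    · refine (pr_or _ _).trans ((add_le_add hN g5).trans (le_of_eq ?_))
      rw [List.length_cons]; push_cast; ring
    · rintro (_ | a) t ht hp
      · obtain ⟨I, hI, h⟩ := f4 t ht (fun e => hp (Or.inl e)) (fun e => hp (Or.inr e))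
        exact h.trans (g4 I _ _ _ hI (X_mono (Finset.subset_univ _) _ _))
      · exact h1 a t ht (fun e => hp (Or.inl e))
    · rintro (_ | a) y hy
      · exact (not_lt.1 fun e => hy (Or.inr e)).trans (f5 y (fun e => hy (Or.inl e)))
      · exact h2 a y (fun e => hy (Or.inl e))

end

end Pool.Agent.FS.MonoDom
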