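import Pool.Agent.FS.MonoDom.Pr

namespace Pool.Agent.FS.MonoDom
open Finset
open scoped BigOperators Classical

theorem tA_count (n h : ℕ) :
    (((univ : Finset (Finset (Fin n))).filter fun S => S.card ≤ h).card : ℝ) ≤ ((n:ℝ) + 1) ^ h := by
  have h1 : ((univ : Finset (Finset (Fin n))).filter fun S => S.card ≤ h).card
      ≤ (univ : Finset (Fin h → Option (Fin n))).card := by
    refine Finset.card_le_card_of_surjOn (fun f => Finset.eraseNone (univ.image f)) ?_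
    intro S hS
    have hS' : S.card ≤ h := by simpa using hS
    refine ⟨fun i => S.toList[i.val]?, by simp, ?_⟩
    ext a
    simp only [Finset.mem_eraseNone, Finset.mem_image, Finset.mem_univ, true_and]
    constructor
    · rintro ⟨i, hi⟩
      exact Finset.mem_toList.1 (List.mem_of_getElem? hi)
    · intro ha
      obtain ⟨i, hi⟩ := List.mem_iff_getElem?.1 (Finset.mem_toList.2 ha)
      have h2 : i < S.toList.length := (List.getElem?_eq_some_iff.1 hi).1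
      rw [Finset.length_toList] at h2
      exact ⟨⟨i, by omega⟩, hi⟩
  have h2 : (univ : Finset (Fin h → Option (Fin n))).card = (n + 1) ^ h := by simp
  rw [h2] at h1
  exact_mod_cast h1

theorem tA_pi {ι X : Type} [Fintype ι] [DecidableEq ι] [Fintype X] (P : ι → X → Prop) :
    pr (fun y : ι → X => ∀ u, P u (y u)) = ∏ u, pr (P u) := by
  simp only [pr_eq_card]
  rw [Finset.prod_div_distrib]
  have h1 : (univ.filter fun y : ι → X => ∀ u, P u (y u))
      = Fintype.piFinset fun u => univ.filter (P u) := by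
    ext y
    simp [Fintype.mem_piFinset]
  have h2 : ((univ.filter fun y : ι → X => ∀ u, P u (y u)).card : ℝ)
      = ∏ u, ((univ.filter (P u)).card : ℝ) := by
    rw [h1, Fintype.card_piFinset]
    push_cast
    rfl
  have h3 : (Fintype.card (ι → X) : ℝ) = ∏ _u : ι, (Fintype.card X : ℝ) := by
    simp
  rw [← h2, ← h3]
  congr 2
  congr 1
  ext y
  simp

theorem tA_zero (n Q : ℕ) (hQ : 0 < Q) (S : Finset (Fin n)) :
    pr (fun x : Fin n → Fin Q => ∀ r, r ∈ S → (x r).val = 0) = (1 / (Q:ℝ)) ^ S.card := by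
  have : Nonempty (Fin Q) := ⟨⟨0, hQ⟩⟩
  have h1 := tA_pi (ι := Fin n) (X := Fin Q) (fun r z => r ∈ S → z.val = 0)
  have h2 : ∀ r : Fin n, pr (fun z : Fin Q => r ∈ S → z.val = 0)
      = if r ∈ S then 1 / (Q:ℝ) else 1 := by
    intro r
    by_cases hr : r ∈ S
    · rw [if_pos hr, pr_eq_card]
      rw [Fintype.card_fin]
      congr 1
      rw [show (1:ℝ) = ((({⟨0, hQ⟩} : Finset (Fin Q)).card : ℕ) : ℝ) by simp]
      congr 2
      ext z
      simp [hr, Fin.ext_iff]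
    · rw [if_neg hr]
      have : (fun z : Fin Q => r ∈ S → z.val = 0) = fun _ => True := by
        funext z
        simp [hr]
      rw [this, pr_true]
  simp only [h2] at h1
  rw [Finset.prod_ite, Finset.prod_const_one, mul_one, Finset.prod_const] at h1
  have h3 : (univ.filter fun r : Fin n => r ∈ S) = S := by ext r; simp
  rw [h3] at h1
  exact h1

theorem tA_fixed (m n Q h : ℕ) (hQ : 0 < Q) (S : Finset (Fin n)) (B : Finset (Fin m))
    (hS : S.card ≤ h) (hB : B.card ≤ h) :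
    pr (fun y : Fin m → Fin n → Fin Q => ∀ u, u ∉ B → ∃ r ∈ S, (y u r).val ≠ 0)
      ≤ (1 - (1 / (Q:ℝ)) ^ h) ^ (m - h) := by
  have : Nonempty (Fin Q) := ⟨⟨0, hQ⟩⟩
  have hQ1 : (1:ℝ) ≤ Q := by exact_mod_cast hQ
  have hq0 : (0:ℝ) ≤ 1 / (Q:ℝ) := by positivity
  have hq1 : 1 / (Q:ℝ) ≤ 1 := by rw [div_le_one (by linarith)]; exact hQ1
  have hp0 : (0:ℝ) ≤ 1 - (1 / (Q:ℝ)) ^ h := sub_nonneg.2 (pow_le_one₀ hq0 hq1)
  have hp1 : 1 - (1 / (Q:ℝ)) ^ h ≤ 1 := sub_le_self _ (pow_nonneg hq0 _)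
  have h1 := tA_pi (ι := Fin m) (X := Fin n → Fin Q)
    (fun u x => u ∉ B → ∃ r ∈ S, (x r).val ≠ 0)
  have h2 : ∀ u : Fin m, pr (fun x : Fin n → Fin Q => u ∉ B → ∃ r ∈ S, (x r).val ≠ 0)
      ≤ if u ∈ B then 1 else 1 - (1 / (Q:ℝ)) ^ h := by
    intro u
    by_cases hu : u ∈ B
    · rw [if_pos hu]
      exact pr_le_one _
    · rw [if_neg hu]
      have h3 : pr (fun x : Fin n → Fin Q => u ∉ B → ∃ r ∈ S, (x r).val ≠ 0)
          ≤ pr (fun x : Fin n → Fin Q => ¬ ∀ r, r ∈ S → (x r).val = 0) :=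
        pr_mono fun x hx hall => by
          obtain ⟨r, hr, hne⟩ := hx hu
          exact hne (hall r hr)
      rw [pr_not, tA_zero n Q hQ S] at h3
      have h4 : (1 / (Q:ℝ)) ^ h ≤ (1 / (Q:ℝ)) ^ S.card := pow_le_pow_of_le_one hq0 hq1 hS
      linarith
  have h3 : ∏ u : Fin m, pr (fun x : Fin n → Fin Q => u ∉ B → ∃ r ∈ S, (x r).val ≠ 0)
      ≤ ∏ u : Fin m, if u ∈ B then 1 else 1 - (1 / (Q:ℝ)) ^ h :=
    Finset.prod_le_prod (fun u _ => pr_nonneg _) fun u _ => h2 u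
  rw [Finset.prod_ite, Finset.prod_const_one, one_mul, Finset.prod_const] at h3
  have h4 : (univ.filter fun u : Fin m => ¬ u ∈ B) = Bᶜ := by ext u; simp
  rw [h4, Finset.card_compl, Fintype.card_fin] at h3
  have h5 : (1 - (1 / (Q:ℝ)) ^ h) ^ (m - B.card) ≤ (1 - (1 / (Q:ℝ)) ^ h) ^ (m - h) :=
    pow_le_pow_of_le_one hp0 hp1 (by omega)
  exact le_trans (le_of_eq h1) (h3.trans h5)

/-- TASK A: a random dense matrix has no `h` rows covering all but `h` columns -/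
theorem neg_bound (m n Q h : ℕ) (hQ : 0 < Q) :
    pr (fun y : Fin m → Fin n → Fin Q => ∃ (S : Finset (Fin n)) (B : Finset (Fin m)),
      S.card ≤ h ∧ B.card ≤ h ∧ ∀ u, u ∉ B → ∃ r ∈ S, (y u r).val ≠ 0)
      ≤ ((n:ℝ) + 1) ^ h * ((m:ℝ) + 1) ^ h * (1 - (1 / (Q:ℝ)) ^ h) ^ (m - h) := by
  have hQ1 : (1:ℝ) ≤ Q := by exact_mod_cast hQ
  have hq0 : (0:ℝ) ≤ 1 / (Q:ℝ) := by positivity
  have hq1 : 1 / (Q:ℝ) ≤ 1 := by rw [div_le_one (by linarith)]; exact hQ1
  have hp0 : (0:ℝ) ≤ (1 - (1 / (Q:ℝ)) ^ h) ^ (m - h) :=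
    pow_nonneg (sub_nonneg.2 (pow_le_one₀ hq0 hq1)) _
  have h1 := pr_union
    (((univ : Finset (Finset (Fin n))).filter fun S => S.card ≤ h) ×ˢ
      ((univ : Finset (Finset (Fin m))).filter fun B => B.card ≤ h))
    (fun a (y : Fin m → Fin n → Fin Q) => ∀ u, u ∉ a.2 → ∃ r ∈ a.1, (y u r).val ≠ 0)
    ((1 - (1 / (Q:ℝ)) ^ h) ^ (m - h)) (fun a ha => by
      rw [Finset.mem_product, Finset.mem_filter, Finset.mem_filter] at ha
      exact tA_fixed m n Q h hQ a.1 a.2 ha.1.2 ha.2.2)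
  refine le_trans (pr_mono fun y hy => ?_) (h1.trans ?_)
  · obtain ⟨S, B, hS, hB, hy⟩ := hy
    exact ⟨(S, B), by simp [hS, hB], hy⟩
  · rw [Finset.card_product]
    push_cast
    exact mul_le_mul_of_nonneg_right
      (mul_le_mul (tA_count n h) (tA_count m h) (by positivity) (by positivity)) hp0

end Pool.Agent.FS.MonoDom
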