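import Pool.Agent.FS.MonoDom.Core3
import Pool.Agent.FS.MonoDom.Neg

namespace Pool.Agent.FS.MonoDom
open Finset
open scoped BigOperators Classical
set_option linter.unusedSectionVars false
set_option linter.style.haveILetI false

variable {R : Type} [Fintype R] [DecidableEq R] {m k : ℕ}

theorem inj_avoid (S : Finset R) (b : ℕ) (hS : S.card ≤ b) (hn : 6 * k * (b + k) ≤ Fintype.card R)
    (hk : 0 < k) :
    (5 / 6 : ℝ) ≤ pr (fun v : Fin k → R => Function.Injective v ∧ ∀ i, v i ∉ S) := by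
  rw [pr_eq_card]
  have hn1 : 2 * (b + k) ≤ Fintype.card R := le_trans (Nat.mul_le_mul_right _ (by omega)) hn
  have hn0 : (0:ℝ) < Fintype.card R := by exact_mod_cast (by omega : 0 < Fintype.card R)
  have hnR : 6 * (k:ℝ) * (b + k) ≤ Fintype.card R := by exact_mod_cast hn
  have hnR1 : 2 * ((b:ℝ) + k) ≤ Fintype.card R := by exact_mod_cast hn1
  have hx : ((b:ℝ) + k) / Fintype.card R ≤ 1 := by
    rw [div_le_one hn0]; have : (0:ℝ) ≤ (b:ℝ) + k := by positivity
    linarith
  have hb : (5 / 6 : ℝ) ≤ (1 - ((b:ℝ) + k) / Fintype.card R) ^ k := by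
    have h1 := one_add_mul_le_pow (a := -(((b:ℝ) + k) / Fintype.card R)) (by linarith) k
    have h2 : (k:ℝ) * (((b:ℝ) + k) / Fintype.card R) ≤ 1 / 6 := by
      rw [← mul_div_assoc, div_le_iff₀ hn0]; linarith
    rw [← sub_eq_add_neg] at h1
    linarith
  refine hb.trans ?_
  simp only [Fintype.card_pi, Finset.prod_const, Finset.card_univ, Fintype.card_fin, Nat.cast_pow]
  rw [le_div_iff₀ (by positivity), ← mul_pow]
  have h1 : Fintype.card (Fin k ↪ {r // r ∉ S}) = (Fintype.card R - S.card).descFactorial k := by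
    rw [Fintype.card_embedding_eq]; simp [Fintype.card_subtype_compl]
  have h2 := Nat.pow_sub_le_descFactorial (Fintype.card R - S.card) k
  have h3 : ((1 - ((b:ℝ) + k) / Fintype.card R) * (Fintype.card R : ℝ)) ≤
      ((Fintype.card R - S.card + 1 - k : ℕ) : ℝ) := by
    have : Fintype.card R ≤ (Fintype.card R - S.card + 1 - k) + (b + k) := by omega
    have : (Fintype.card R : ℝ) ≤ ((Fintype.card R - S.card + 1 - k : ℕ) : ℝ) + (b + k) := by
      exact_mod_cast this
    rw [sub_mul, div_mul_cancel₀ _ hn0.ne']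
    linarith
  refine (pow_le_pow_left₀ (mul_nonneg (by linarith) hn0.le) h3 k).trans ?_
  rw [← Nat.cast_pow]
  refine Nat.cast_le.2 (h2.trans ?_)
  rw [← h1, ← Finset.card_univ]
  refine Finset.card_le_card_of_injOn (fun e i => (e i).1) (fun e _ => ?_) (fun e _ e' _ h => ?_)
  · simp only [Finset.coe_filter, Finset.mem_univ, true_and, Set.mem_ofPred_eq]
    exact ⟨fun i j hij => e.injective (Subtype.ext hij), fun i => (e i).2⟩
  · ext i; exact congrFun h i

theorem core {ι : Type} {Q T c : ℕ} {s eps : ℝ} (hc : 1 ≤ c) (hcQ : c * k ^ 2 ≤ Q) (hs0 : 0 < s)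
    (hs : s ≤ 1) (hT : (1 - s) ^ T < eps) (he0 : 0 < eps) (he : eps ≤ 1) (hk : 2 ≤ k)
    (σ : ι → Inp R m → Prop) (hσ : ∀ i, Monotone (σ i) ∧ GenP k (σ i)) (C : List (Gate ι))
    (hn : 6 * k * (k * T + k) ≤ Fintype.card R) (L : ℝ) (hL : (C.length : ℝ) ≤ L)
    (hA : L * (((2:ℝ) ^ k * (Fintype.card R : ℝ) ^ k * (k:ℝ) ^ m) ^ 2 * eps) < 1 / 12)
    (hB : (L + 1) * (2 * 4 ^ k * s ^ c +
      4 ^ k * (((k:ℝ) * (k * T)) ^ k / (Fintype.card R : ℝ) ^ k)) < 1 / 12)
    (hacc : pr (fun t : (Fin k → R) × (Fin m → Fin k) => Function.Injective t.1 ∧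
        ¬ Accepts C fun i => σ i (X univ t.1 t.2)) +
      pr (fun y : Fin m → R → Fin Q => Accepts C fun i => σ i (Y univ y)) ≤ 3 / 4) :
    False := by
  have hQ : 0 < Q := lt_of_lt_of_le (by positivity) hcQ
  haveI : Nonempty (Fin Q) := ⟨⟨0, hQ⟩⟩
  haveI : Nonempty (Fin k) := ⟨⟨0, by omega⟩⟩
  haveI : Nonempty R := Fintype.card_pos_iff.1 (lt_of_lt_of_le (by positivity) hn)
  have hp0 := pr_nonneg (fun t : (Fin k → R) × (Fin m → Fin k) => Function.Injective t.1 ∧
        ¬ Accepts C fun i => σ i (X univ t.1 t.2))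
  have hq0 := pr_nonneg (fun y : Fin m → R → Fin Q => Accepts C fun i => σ i (Y univ y))
  have hE : (∅ : Finset (Fin k)) ≠ univ := fun h => by
    have := congrArg Finset.card h; simp at this; omega
  obtain ⟨A, P, N, hG, hP, hN, h1, h2⟩ := approx hc hcQ hQ hs0 hs hT he0 he hk σ hσ C
  have hbot : ∀ (v : Fin k → R) (φ : Fin m → Fin k), X ∅ v φ = ⊥ := fun v φ => by
    funext u r; simp [X]
  set η := 2 * 4 ^ k * s ^ c + 4 ^ k * (((k:ℝ) * (k * T)) ^ k / (Fintype.card R : ℝ) ^ k) with hη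
  by_cases h0 : 0 < A 0 ⊥
  · have a1 : pr (fun _ : Fin m → R → Fin Q => True) ≤
        pr (fun y => N y ∨ Accepts C fun i => σ i (Y univ y)) :=
      pr_mono fun y _ => by
        by_cases hy : N y
        · exact Or.inl hy
        · exact Or.inr ((h0.trans_le ((hG 0).1 bot_le)).trans_le (h2 0 y hy))
    rw [pr_true] at a1
    have a2 := pr_or N (fun y => Accepts C fun i => σ i (Y univ y))
    have a3 := mul_le_mul_of_nonneg_right hL
      (by positivity : (0:ℝ) ≤ ((2:ℝ) ^ k * (Fintype.card R : ℝ) ^ k * (k:ℝ) ^ m) ^ 2 * eps)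
    linarith
  · obtain ⟨S, hS, hW⟩ := hit (k := k) hQ (fun x => A 0 ⊥ < A 0 x) (mono_lt (hG 0).1 _) ⊥ s eps T
      hs hT (by
      have := (hG 0).2.2 ∅ hE (fun _ => Classical.arbitrary R) (fun _ => Classical.arbitrary _)
      rw [hbot] at this
      exact this)
    have a1 := inj_avoid (k := k) S (k * T) hS hn (by omega)
    rw [← pr_fst (B := Fin m → Fin k)] at a1
    have a2 : pr (fun t : (Fin k → R) × (Fin m → Fin k) =>
        Function.Injective t.1 ∧ ∀ i, t.1 i ∉ S) ≤ pr (fun t => (P t ∨ Bad Q s (A 0) t) ∨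
          (Function.Injective t.1 ∧ ¬ Accepts C fun i => σ i (X univ t.1 t.2))) :=
      pr_mono fun t ht => by
        by_contra hn''
        rw [not_or, not_or] at hn''
        have hn' := hn''.1
        obtain ⟨I, hI, hI'⟩ := (hG 0).2.1 _ ht.1 t.2
        have hac : Accepts C fun i => σ i (X univ t.1 t.2) := by_contra fun e => hn''.2 ⟨ht.1, e⟩
        have hlt : A 0 ⊥ < A 0 (X I t.1 t.2) :=
          (not_lt.1 h0).trans_lt ((lt_of_lt_of_le hac (h1 0 t ht.1 hn'.1)).trans_le hI')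
        have hst : Strong Q s (fun x => A 0 ⊥ < A 0 x) ⊥ (I.image t.1) := by
          by_contra hst
          exact hn'.2 ⟨(∅, I), by simpa using hI, by rw [hbot, Finset.empty_union]; exact hlt,
            by rwa [hbot]⟩
        obtain ⟨r, hr, hrS⟩ := hW _
          (Finset.card_image_le.trans (by simpa using Finset.card_le_univ I)) hst
        obtain ⟨i, -, rfl⟩ := Finset.mem_image.1 hr
        exact ht.2 i hrS
    have a3 := pr_or P (Bad Q s (A 0))
    have a3' := pr_or (fun t => P t ∨ Bad Q s (A 0) t) (fun t : (Fin k → R) × (Fin m → Fin k) =>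
      Function.Injective t.1 ∧ ¬ Accepts C fun i => σ i (X univ t.1 t.2))
    have a4 := bad_le (k := k) hc hcQ s hs0 (A 0) (hG 0).1
    have hη0 : 0 ≤ η := by positivity
    have a5 := mul_le_mul_of_nonneg_right hL hη0
    have a6 : 4 ^ k * s ^ c ≤ η := by
      have : (0:ℝ) ≤ 4 ^ k * (((k:ℝ) * (k * T)) ^ k / (Fintype.card R : ℝ) ^ k) := by positivity
      have : (0:ℝ) ≤ 4 ^ k * s ^ c := by positivity
      rw [hη]; linarith
    linarith

/-- adjacency of the split graph of a matrix: rows form a clique, columns an independent set -/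
def rel {n : ℕ} (x : Inp (Fin n) m) : Fin m ⊕ Fin n → Fin m ⊕ Fin n → Prop
  | .inl _, .inl _ => False
  | .inl u, .inr r => x u r
  | .inr r, .inl u => x u r
  | .inr a, .inr b => a ≠ b

def gr {n : ℕ} (x : Inp (Fin n) m) : SimpleGraph (Fin (m + n)) where
  Adj a b := rel x (finSumFinEquiv.symm a) (finSumFinEquiv.symm b)
  symm := ⟨fun a b => by
    generalize finSumFinEquiv.symm a = a; generalize finSumFinEquiv.symm b = b
    cases a <;> cases b <;> simp [rel, ne_comm]⟩
  loopless := ⟨fun a => by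
    generalize finSumFinEquiv.symm a = a
    cases a <;> simp [rel]⟩

theorem rel_simple {n : ℕ} (hk : 2 ≤ k) (a b : Fin m ⊕ Fin n) :
    Monotone (fun x : Inp (Fin n) m => rel x a b) ∧ GenP k (fun x : Inp (Fin n) m => rel x a b) := by
  have hE : ∀ i : Fin k, ({i} : Finset (Fin k)) ≠ univ := fun i h => by
    have := congrArg Finset.card h; simp at this; omega
  cases a <;> cases b
  · exact ⟨monotone_const, fun _ _ _ h => h.elim⟩
  · exact ⟨fun x y h => h _ _, fun v _ φ h => ⟨_, hE _, Finset.mem_singleton_self _, h.2⟩⟩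
  · exact ⟨fun x y h => h _ _, fun v _ φ h => ⟨_, hE _, Finset.mem_singleton_self _, h.2⟩⟩
  · exact ⟨monotone_const, fun _ _ _ h => ⟨_, hE ⟨0, by omega⟩, h⟩⟩

theorem gr_pos {n : ℕ} (hk : 2 ≤ k) (v : Fin k → Fin n) (hv : Function.Injective v)
    (φ : Fin m → Fin k) : ∃ D : Finset (Fin (m + n)), D.card = k ∧ Dominating (gr (X univ v φ)) D := by
  refine ⟨univ.image fun i => finSumFinEquiv (Sum.inr (v i)), ?_, fun w => ?_⟩
  · rw [Finset.card_image_of_injective _ fun i j h => hv (by simpa using h)]; simp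
  · obtain ⟨w, rfl⟩ := finSumFinEquiv.surjective w
    rcases w with u | r
    · refine Or.inr ⟨_, Finset.mem_image.2 ⟨φ u, Finset.mem_univ _, rfl⟩, ?_⟩
      simp only [gr, Equiv.symm_apply_apply, rel]
      exact ⟨Finset.mem_univ _, rfl⟩
    · by_cases h : v ⟨0, by omega⟩ = r
      · exact Or.inl (Finset.mem_image.2 ⟨_, Finset.mem_univ _, by rw [h]⟩)
      · refine Or.inr ⟨_, Finset.mem_image.2 ⟨⟨0, by omega⟩, Finset.mem_univ _, rfl⟩, ?_⟩
        simp only [gr, Equiv.symm_apply_apply, rel]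
        exact h

theorem gr_neg {n Q h : ℕ} (y : Fin m → Fin n → Fin Q) (D : Finset (Fin (m + n))) (hD : D.card ≤ h)
    (hd : Dominating (gr (Y univ y)) D) : ∃ (S : Finset (Fin n)) (B : Finset (Fin m)),
      S.card ≤ h ∧ B.card ≤ h ∧ ∀ u, u ∉ B → ∃ r ∈ S, (y u r).val ≠ 0 := by
  refine ⟨univ.filter fun r => finSumFinEquiv (Sum.inr r) ∈ D,
    univ.filter fun u => finSumFinEquiv (Sum.inl u) ∈ D, le_trans ?_ hD, le_trans ?_ hD, ?_⟩
  · exact Finset.card_le_card_of_injOn (fun r => finSumFinEquiv (Sum.inr r))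
      (fun r hr => by simpa using hr) (fun a _ b _ e => by simpa using e)
  · exact Finset.card_le_card_of_injOn (fun r => finSumFinEquiv (Sum.inl r))
      (fun r hr => by simpa using hr) (fun a _ b _ e => by simpa using e)
  · intro u hu
    rcases hd (finSumFinEquiv (Sum.inl u)) with h1 | ⟨w, hw, h1⟩
    · exact absurd h1 (by simpa using hu)
    · obtain ⟨w, rfl⟩ := finSumFinEquiv.surjective w
      simp only [gr, Equiv.symm_apply_apply] at h1
      rcases w with u' | r
      · exact h1.elim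
      · exact ⟨r, Finset.mem_filter.2 ⟨Finset.mem_univ _, hw⟩, h1.2⟩

theorem pr_prod {A B : Type} [Fintype A] [Fintype B] (P : A × B → Prop) :
    pr P = 𝔼 a, pr (fun b => P (a, b)) := by
  unfold pr
  rw [← Finset.univ_product_univ, Finset.expect_product]

theorem average {A B B' : Type} [Fintype A] [Fintype B] [Fintype B'] [Nonempty A]
    (P : A → B → Prop) (P' : A → B' → Prop) (h : ∀ b, pr (fun a => P a b) ≤ 1 / 3)
    (h' : ∀ b, pr (fun a => P' a b) ≤ 1 / 3) : ∃ a, pr (P a) + pr (P' a) ≤ 2 / 3 := by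
  have h1 := pr_prod_le' (fun p : A × B => P p.1 p.2) (1 / 3) (by norm_num) h
  have h2 := pr_prod_le' (fun p : A × B' => P' p.1 p.2) (1 / 3) (by norm_num) h'
  rw [pr_prod] at h1 h2
  have h3 : 𝔼 a, (pr (P a) + pr (P' a)) ≤ 2 / 3 := by
    rw [Finset.expect_add_distrib]; linarith
  obtain ⟨a, -, ha⟩ := Finset.exists_le_of_expect_le Finset.univ_nonempty h3
  exact ⟨a, ha⟩

theorem pr_fin {t : ℕ} (P : Fin t → Prop) : pr P = (Nat.card {j // P j} : ℝ) / t := by
  rw [pr_eq_card, Nat.card_eq_fintype_card, Fintype.card_subtype, Fintype.card_fin]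

end Pool.Agent.FS.MonoDom
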