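import Mathlib

namespace Pool.Agent.FS.MonoDom

theorem tB_root (e N : ℕ) (he : 1 ≤ e) : ∃ a : ℕ, a ^ e ≤ N ∧ N < (a + 1) ^ e := by
  induction N with
  | zero => exact ⟨0, by rw [zero_pow (by omega)], by simp⟩
  | succ N ih =>
    obtain ⟨a, h1, h2⟩ := ih
    by_cases h : N + 1 < (a + 1) ^ e
    · exact ⟨a, by omega, h⟩
    · refine ⟨a + 1, by omega, ?_⟩
      have : (a + 1) ^ e < (a + 1 + 1) ^ e := Nat.pow_lt_pow_left (by omega) (by omega)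
      omega

theorem tB_half : Real.exp (-4) < 1 / 12 := by
  have h := Real.exp_one_gt_two
  have h4 : Real.exp 4 = Real.exp 1 ^ 4 := by rw [← Real.exp_nat_mul]; norm_num
  have h5 : (2:ℝ) ^ 4 ≤ Real.exp 1 ^ 4 := pow_le_pow_left₀ (by norm_num) h.le 4
  rw [Real.exp_neg, inv_eq_one_div]
  exact one_div_lt_one_div_of_lt (by norm_num) (by rw [h4]; linarith)

theorem tB_decay (x : ℝ) (hx : x ≤ 1) (t : ℕ) : (1 - x) ^ t ≤ Real.exp (-(x * t)) := by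
  have h1 : 1 - x ≤ Real.exp (-x) := by have := Real.add_one_le_exp (-x); linarith
  calc (1 - x) ^ t ≤ Real.exp (-x) ^ t := pow_le_pow_left₀ (by linarith) h1 t
    _ = Real.exp (-(x * t)) := by rw [← Real.exp_nat_mul]; congr 1; ring

theorem tB_exp (a e N : ℕ) (h : N < (a + 1) ^ e) : (N:ℝ) + 1 ≤ Real.exp (e * a) := by
  have h1 : ((N + 1 : ℕ) : ℝ) ≤ (((a + 1) ^ e : ℕ) : ℝ) := by exact_mod_cast h
  push_cast at h1
  calc (N:ℝ) + 1 ≤ ((a:ℝ) + 1) ^ e := h1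
    _ ≤ Real.exp a ^ e := pow_le_pow_left₀ (by positivity) (Real.add_one_le_exp _) e
    _ = Real.exp (e * a) := by rw [← Real.exp_nat_mul]

theorem tB_Qh (a e N Q : ℕ) (he : 1 ≤ e) (ha : 2 ≤ a) (hQ : 2 ≤ Q) (hN : 1 ≤ N)
    (h : N < (a + 1) ^ e) : Q ^ ⌊1 / (2 * e * Real.log Q) * Real.log N⌋₊ ≤ a := by
  have hQ1 : (1:ℝ) < Q := by exact_mod_cast hQ
  have hl : 0 < Real.log Q := Real.log_pos hQ1
  have he0 : (0:ℝ) < e := by exact_mod_cast he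
  have ha0 : (0:ℝ) < a := by exact_mod_cast (by omega : 0 < a)
  have hN0 : (0:ℝ) < N := by exact_mod_cast hN
  have hlN : 0 ≤ Real.log N := Real.log_nonneg (by exact_mod_cast hN)
  have h1 : N ≤ a ^ (2 * e) := by
    have : a + 1 ≤ a ^ 2 := by nlinarith
    calc N ≤ (a + 1) ^ e := h.le
      _ ≤ (a ^ 2) ^ e := Nat.pow_le_pow_left this e
      _ = a ^ (2 * e) := by rw [← pow_mul]
  have h2 : Real.log N ≤ 2 * e * Real.log a := by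
    have : (N:ℝ) ≤ (a:ℝ) ^ (2 * e) := by exact_mod_cast h1
    have := Real.log_le_log hN0 this
    rw [Real.log_pow] at this
    push_cast at this
    exact this
  set h := ⌊1 / (2 * e * Real.log Q) * Real.log N⌋₊ with hh
  have h3 : (h:ℝ) ≤ 1 / (2 * e * Real.log Q) * Real.log N := Nat.floor_le (by positivity)
  have h4 : (h:ℝ) * Real.log Q ≤ Real.log a := by
    have h5 : (h:ℝ) * (2 * e * Real.log Q) ≤ Real.log N := by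
      rw [one_div, inv_mul_eq_div, le_div_iff₀ (by positivity)] at h3
      exact h3
    have h6 : (2 * e) * ((h:ℝ) * Real.log Q) ≤ (2 * e) * Real.log a := by linarith
    exact le_of_mul_le_mul_left h6 (by positivity)
  have h7 : (Q:ℝ) ^ h ≤ a := by
    rw [← Real.log_le_log_iff (by positivity) ha0, Real.log_pow]
    exact h4
  exact_mod_cast h7

theorem tB_neg (a e N n Q h : ℕ) (ha : 2 * e + 2 ≤ a) (hQ : 2 ≤ Q) (hN : N < (a + 1) ^ e)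
    (hn : n ≤ N) (hm : a ^ 4 ≤ N) (hh : Q ^ h ≤ a) :
    ((n:ℝ) + 1) ^ h * (((a ^ 4 : ℕ):ℝ) + 1) ^ h * (1 - (1 / (Q:ℝ)) ^ h) ^ (a ^ 4 - h) ≤ 1 / 12 := by
  have hha : h ≤ a := by
    have h1 : h < 2 ^ h := Nat.lt_two_pow_self
    have h2 : 2 ^ h ≤ Q ^ h := Nat.pow_le_pow_left hQ h
    omega
  have ha2 : 2 ≤ a := by omega
  have ha4 : a ≤ a ^ 4 := Nat.le_self_pow (by norm_num) a
  have hE := tB_exp a e N hN
  have ha0 : (0:ℝ) < a := by exact_mod_cast (by omega : 0 < a)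
  have hQ0 : (1:ℝ) ≤ Q := by exact_mod_cast (by omega : 1 ≤ Q)
  have e1 : ∀ x : ℕ, x ≤ N → ((x:ℝ) + 1) ^ h ≤ Real.exp (e * a * a) := by
    intro x hx
    have : (x:ℝ) ≤ N := by exact_mod_cast hx
    calc ((x:ℝ) + 1) ^ h ≤ Real.exp (e * a) ^ h := pow_le_pow_left₀ (by positivity) (by linarith) h
      _ = Real.exp (h * (e * a)) := by rw [← Real.exp_nat_mul]
      _ ≤ Real.exp (e * a * a) := by
        apply Real.exp_le_exp.2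
        have : (h:ℝ) ≤ a := by exact_mod_cast hha
        have : (0:ℝ) ≤ e * a := by positivity
        nlinarith
  have hx1 : (1 / (Q:ℝ)) ^ h ≤ 1 := pow_le_one₀ (by positivity) (by rw [div_le_one (by linarith)]; exact hQ0)
  have hx2 : 1 / (a:ℝ) ≤ (1 / (Q:ℝ)) ^ h := by
    rw [one_div_pow]
    exact one_div_le_one_div_of_le (by positivity) (by exact_mod_cast hh)
  have e2 : (1 - (1 / (Q:ℝ)) ^ h) ^ (a ^ 4 - h) ≤ Real.exp (1 - (a:ℝ) ^ 3) := by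
    refine (tB_decay _ hx1 _).trans (Real.exp_le_exp.2 ?_)
    have h1 : (a:ℝ) ^ 4 - a ≤ ((a ^ 4 - h : ℕ) : ℝ) := by
      rw [Nat.cast_sub (by omega)]
      have : (h:ℝ) ≤ a := by exact_mod_cast hha
      push_cast
      linarith
    have h0 : (0:ℝ) ≤ (a:ℝ) ^ 4 - a := by
      have : (a:ℝ) ≤ (a:ℝ) ^ 4 := by exact_mod_cast ha4
      linarith
    have h2 : 1 / (a:ℝ) * ((a:ℝ) ^ 4 - a) ≤ (1 / (Q:ℝ)) ^ h * ((a ^ 4 - h : ℕ) : ℝ) :=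
      mul_le_mul hx2 h1 h0 (by positivity)
    have h3 : 1 / (a:ℝ) * ((a:ℝ) ^ 4 - a) = (a:ℝ) ^ 3 - 1 := by field_simp
    linarith
  have hp : 0 ≤ (1 - (1 / (Q:ℝ)) ^ h) ^ (a ^ 4 - h) := pow_nonneg (by linarith) _
  calc ((n:ℝ) + 1) ^ h * (((a ^ 4 : ℕ):ℝ) + 1) ^ h * (1 - (1 / (Q:ℝ)) ^ h) ^ (a ^ 4 - h)
      ≤ Real.exp (e * a * a) * Real.exp (e * a * a) * Real.exp (1 - (a:ℝ) ^ 3) := by
        apply mul_le_mul (mul_le_mul (e1 n hn) (e1 _ hm) (by positivity) (by positivity)) e2 hp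
        positivity
    _ = Real.exp (2 * e * a * a + 1 - (a:ℝ) ^ 3) := by
        rw [← Real.exp_add, ← Real.exp_add]; congr 1; ring
    _ ≤ Real.exp (-4) := by
        apply Real.exp_le_exp.2
        have h1 : 2 * (e:ℝ) + 2 ≤ a := by exact_mod_cast ha
        have h2 : (2:ℝ) ≤ a := by exact_mod_cast ha2
        have h3 : (4:ℝ) ≤ a * a := by nlinarith
        have h4 : (2 * (e:ℝ) + 2) * (a * a) ≤ a * (a * a) := mul_le_mul_of_nonneg_right h1 (by positivity)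
        nlinarith
    _ ≤ 1 / 12 := tB_half.le

theorem tB_eps (a e k N n : ℕ) (d : ℝ) (hd : 0 < d) (ha : 4 * k + 4 * e * k + 1 ≤ a) (ha2 : 2 ≤ a)
    (hN1 : 1 ≤ N) (hN : N < (a + 1) ^ e) (hn : n ≤ N) :
    (N:ℝ) ^ ((k:ℝ) - d) * (((2:ℝ) ^ k * (n:ℝ) ^ k * (k:ℝ) ^ (a ^ 4)) ^ 2 * Real.exp (-(a:ℝ) ^ 5)) < 1 / 12 := by
  have hE := tB_exp a e N hN
  have hN0 : (1:ℝ) ≤ N := by exact_mod_cast hN1
  have hn0 : (n:ℝ) ≤ N := by exact_mod_cast hn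
  have ha1 : (1:ℝ) ≤ a := by exact_mod_cast (by omega : 1 ≤ a)
  have e0 : ∀ x : ℝ, 0 ≤ x → x ≤ N → x ^ k ≤ Real.exp (k * (e * a)) := by
    intro x h0 hx
    rw [Real.exp_nat_mul]
    exact pow_le_pow_left₀ h0 (by linarith) k
  have e1 : (N:ℝ) ^ ((k:ℝ) - d) ≤ Real.exp (k * (e * a)) := by
    refine le_trans ?_ (e0 N (by positivity) le_rfl)
    rw [← Real.rpow_natCast]
    exact Real.rpow_le_rpow_of_exponent_le hN0 (by linarith)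
  have e2 : (2:ℝ) ^ k ≤ Real.exp k := by
    have : Real.exp k = Real.exp 1 ^ k := by rw [← Real.exp_nat_mul, mul_one]
    rw [this]
    exact pow_le_pow_left₀ (by norm_num) Real.exp_one_gt_two.le k
  have e3 : (k:ℝ) ^ (a ^ 4) ≤ Real.exp (((a ^ 4 : ℕ):ℝ) * k) := by
    rw [Real.exp_nat_mul]
    exact pow_le_pow_left₀ (by positivity) (by have := Real.add_one_le_exp (k:ℝ); linarith) _
  calc (N:ℝ) ^ ((k:ℝ) - d) * (((2:ℝ) ^ k * (n:ℝ) ^ k * (k:ℝ) ^ (a ^ 4)) ^ 2 * Real.exp (-(a:ℝ) ^ 5))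
      ≤ Real.exp (k * (e * a)) * ((Real.exp k * Real.exp (k * (e * a)) *
          Real.exp (((a ^ 4 : ℕ):ℝ) * k)) ^ 2 * Real.exp (-(a:ℝ) ^ 5)) := by
        have := e0 n (by positivity) hn0
        gcongr
    _ = Real.exp (3 * e * k * a + 2 * k + 2 * (a:ℝ) ^ 4 * k - (a:ℝ) ^ 5) := by
        rw [← Real.exp_add, ← Real.exp_add, sq, ← Real.exp_add, ← Real.exp_add, ← Real.exp_add]
        congr 1; push_cast; ring
    _ ≤ Real.exp (-4) := by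
        apply Real.exp_le_exp.2
        have h1 : 4 * (k:ℝ) + 4 * e * k + 1 ≤ a := by exact_mod_cast ha
        have h2 : (1:ℝ) ≤ (a:ℝ) ^ 4 := one_le_pow₀ ha1
        have h3 : (a:ℝ) ≤ (a:ℝ) ^ 4 := le_self_pow₀ ha1 (by norm_num)
        have h4 : (4 * (k:ℝ) + 4 * e * k + 1) * (a:ℝ) ^ 4 ≤ a * (a:ℝ) ^ 4 :=
          mul_le_mul_of_nonneg_right h1 (by positivity)
        have h5 : 3 * (e:ℝ) * k * a ≤ 3 * e * k * (a:ℝ) ^ 4 := mul_le_mul_of_nonneg_left h3 (by positivity)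
        have h5' : (0:ℝ) ≤ e * k * (a:ℝ) ^ 4 := by positivity
        have h6 : (k:ℝ) * 1 ≤ k * (a:ℝ) ^ 4 := mul_le_mul_of_nonneg_left h2 (by positivity)
        have h7 : (2:ℝ) ^ 4 ≤ (a:ℝ) ^ 4 := pow_le_pow_left₀ (by norm_num) (by exact_mod_cast ha2) 4
        nlinarith
    _ < 1 / 12 := tB_half

theorem tB_last (a e k N n : ℕ) (d : ℝ) (hd : 0 < d) (hk : 1 ≤ k) (he : 8 ≤ e)
    (hed : 7 * (k:ℝ) + 1 ≤ e * d) (ha2 : 2 ≤ a)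
    (ha : 3 * (8 * 8 ^ k + 2 * 16 ^ k * (k * k) ^ k) < a)
    (hN0 : a ^ e ≤ N) (hN : N < (a + 1) ^ e) (hn : N ≤ 2 * n) :
    ((N:ℝ) ^ ((k:ℝ) - d) + 1) *
      (2 * 4 ^ k * (1 / (a:ℝ)) ^ (2 * e * k) +
        4 ^ k * (((k:ℝ) * (k * ((a ^ 7 : ℕ) : ℝ))) ^ k / (n:ℝ) ^ k)) < (1 / 2) ^ k / 3 := by
  have haR : (2:ℝ) ≤ a := by exact_mod_cast ha2
  have ha0 : (0:ℝ) < a := by linarith
  have hN1 : 1 ≤ N := le_trans (Nat.one_le_pow _ _ (by omega)) hN0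
  have hNR : (1:ℝ) ≤ N := by exact_mod_cast hN1
  have hNa : (a:ℝ) ^ e ≤ N := by exact_mod_cast hN0
  have hnR : (N:ℝ) / 2 ≤ n := by
    have : (N:ℝ) ≤ 2 * n := by exact_mod_cast hn
    linarith
  have hNk : (1:ℝ) ≤ (N:ℝ) ^ k := one_le_pow₀ hNR
  have p1 : (N:ℝ) ^ ((k:ℝ) - d) ≤ (N:ℝ) ^ k := by
    rw [← Real.rpow_natCast]
    exact Real.rpow_le_rpow_of_exponent_le hNR (by linarith)
  have p0 : 0 ≤ (N:ℝ) ^ ((k:ℝ) - d) := by positivity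
  have p2 : (N:ℝ) ^ k * (1 / (a:ℝ)) ^ (2 * e * k) ≤ 2 / a := by
    have h1 : (N:ℝ) ≤ (2 * (a:ℝ)) ^ e := by
      have h2 : (N:ℝ) ≤ ((a:ℝ) + 1) ^ e := by exact_mod_cast hN.le
      exact h2.trans (pow_le_pow_left₀ (by positivity) (by linarith) e)
    have h3 : (N:ℝ) ^ k ≤ (2 * (a:ℝ)) ^ (e * k) := by
      rw [pow_mul]; exact pow_le_pow_left₀ (by positivity) h1 k
    have h4 : (2 * (a:ℝ)) ^ (e * k) * (1 / (a:ℝ)) ^ (2 * e * k) = (2 / (a:ℝ)) ^ (e * k) := by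
      rw [mul_assoc 2 e k, pow_mul (1 / (a:ℝ)) 2, ← mul_pow]
      congr 1; field_simp
    have h5 : (2 / (a:ℝ)) ^ (e * k) ≤ 2 / a :=
      pow_le_of_le_one (by positivity) (by rw [div_le_one ha0]; exact haR)
        (Nat.mul_pos (by omega) (by omega)).ne'
    calc (N:ℝ) ^ k * (1 / (a:ℝ)) ^ (2 * e * k)
        ≤ (2 * (a:ℝ)) ^ (e * k) * (1 / (a:ℝ)) ^ (2 * e * k) := by gcongr
      _ ≤ 2 / a := by rw [h4]; exact h5
  have t1 : ((N:ℝ) ^ ((k:ℝ) - d) + 1) * (2 * 4 ^ k * (1 / (a:ℝ)) ^ (2 * e * k)) ≤ 8 * 4 ^ k / a := by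
    calc ((N:ℝ) ^ ((k:ℝ) - d) + 1) * (2 * 4 ^ k * (1 / (a:ℝ)) ^ (2 * e * k))
        ≤ (2 * (N:ℝ) ^ k) * (2 * 4 ^ k * (1 / (a:ℝ)) ^ (2 * e * k)) := by
          apply mul_le_mul_of_nonneg_right (by linarith); positivity
      _ = 4 * 4 ^ k * ((N:ℝ) ^ k * (1 / (a:ℝ)) ^ (2 * e * k)) := by ring
      _ ≤ 4 * 4 ^ k * (2 / a) := by gcongr
      _ = 8 * 4 ^ k / a := by ring
  have q1 : (a:ℝ) ^ (7 * k + 1) ≤ (N:ℝ) ^ k := by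
    calc (a:ℝ) ^ (7 * k + 1) ≤ (a:ℝ) ^ (e * k) := pow_le_pow_right₀ (by linarith) (by nlinarith)
      _ = ((a:ℝ) ^ e) ^ k := by rw [pow_mul]
      _ ≤ (N:ℝ) ^ k := pow_le_pow_left₀ (by positivity) hNa k
  have q2 : (a:ℝ) ^ (7 * k + 1) ≤ (N:ℝ) ^ d := by
    calc (a:ℝ) ^ (7 * k + 1) = (a:ℝ) ^ (((7 * k + 1 : ℕ)) : ℝ) := (Real.rpow_natCast _ _).symm
      _ ≤ (a:ℝ) ^ ((e:ℝ) * d) :=
          Real.rpow_le_rpow_of_exponent_le (by linarith) (by push_cast; exact hed)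
      _ = ((a:ℝ) ^ e) ^ d := by rw [Real.rpow_mul ha0.le, Real.rpow_natCast]
      _ ≤ (N:ℝ) ^ d := Real.rpow_le_rpow (by positivity) hNa hd.le
  have q3 : ((N:ℝ) ^ ((k:ℝ) - d) + 1) / (N:ℝ) ^ k ≤ 2 / (a:ℝ) ^ (7 * k + 1) := by
    have h1 : (N:ℝ) ^ ((k:ℝ) - d) / (N:ℝ) ^ k = 1 / (N:ℝ) ^ d := by
      rw [Real.rpow_sub (by linarith), Real.rpow_natCast]
      field_simp
    have h2 := one_div_le_one_div_of_le (by positivity) q1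
    have h3 := one_div_le_one_div_of_le (by positivity) q2
    rw [add_div, h1]
    have : 2 / (a:ℝ) ^ (7 * k + 1) = 1 / (a:ℝ) ^ (7 * k + 1) + 1 / (a:ℝ) ^ (7 * k + 1) := by ring
    linarith
  have t2 : ((N:ℝ) ^ ((k:ℝ) - d) + 1) *
      (4 ^ k * (((k:ℝ) * (k * ((a ^ 7 : ℕ) : ℝ))) ^ k / (n:ℝ) ^ k)) ≤ 2 * 8 ^ k * ((k:ℝ) * k) ^ k / a := by
    have h8 : (8:ℝ) ^ k = 4 ^ k * 2 ^ k := by rw [← mul_pow]; norm_num
    have h9 : ((k:ℝ) * (k * ((a ^ 7 : ℕ) : ℝ))) ^ k = ((k:ℝ) * k) ^ k * (a:ℝ) ^ (7 * k) := by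
      rw [pow_mul, ← mul_pow]; congr 1; push_cast; ring
    calc ((N:ℝ) ^ ((k:ℝ) - d) + 1) * (4 ^ k * (((k:ℝ) * (k * ((a ^ 7 : ℕ) : ℝ))) ^ k / (n:ℝ) ^ k))
        ≤ ((N:ℝ) ^ ((k:ℝ) - d) + 1) *
            (4 ^ k * (((k:ℝ) * (k * ((a ^ 7 : ℕ) : ℝ))) ^ k / ((N:ℝ) / 2) ^ k)) := by gcongr
      _ = 8 ^ k * ((k:ℝ) * k) ^ k * (a:ℝ) ^ (7 * k) *
            (((N:ℝ) ^ ((k:ℝ) - d) + 1) / (N:ℝ) ^ k) := by
          rw [h9, h8, div_pow]; field_simp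
      _ ≤ 8 ^ k * ((k:ℝ) * k) ^ k * (a:ℝ) ^ (7 * k) * (2 / (a:ℝ) ^ (7 * k + 1)) := by gcongr
      _ = 2 * 8 ^ k * ((k:ℝ) * k) ^ k / a := by rw [pow_succ]; field_simp
  have haL : 3 * (8 * (8:ℝ) ^ k + 2 * 16 ^ k * ((k:ℝ) * k) ^ k) < a := by exact_mod_cast ha
  have fin : 8 * (4:ℝ) ^ k / a + 2 * 8 ^ k * ((k:ℝ) * k) ^ k / a < (1 / 2) ^ k / 3 := by
    rw [← add_div, one_div_pow, div_div, div_lt_div_iff₀ ha0 (by positivity), ← mul_assoc]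
    have h8 : (8:ℝ) ^ k = 4 ^ k * 2 ^ k := by rw [← mul_pow]; norm_num
    have h16 : (16:ℝ) ^ k = 8 ^ k * 2 ^ k := by rw [← mul_pow]; norm_num
    have : (8 * (4:ℝ) ^ k + 2 * 8 ^ k * ((k:ℝ) * k) ^ k) * 2 ^ k
        = 8 * (8:ℝ) ^ k + 2 * 16 ^ k * ((k:ℝ) * k) ^ k := by
      rw [h16]; nth_rewrite 2 [h8]; ring
    linarith
  rw [mul_add]
  linarith

/-- Choice of parameters: `a ^ e ≤ N < (a + 1) ^ e`, `m = a ^ 4`, `T = a ^ 7`, `s = 1 / a`. -/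
theorem params (k : ℕ) (hk : 2 ≤ k) (d : ℝ) (hd : 0 < d) :
    ∃ c0 : ℝ, 0 < c0 ∧ ∃ N0 : ℕ, ∀ N : ℕ, N0 ≤ N → ∃ (m n Q c T h : ℕ) (s eps : ℝ),
      N = m + n ∧ 1 ≤ c ∧ c * k ^ 2 ≤ Q ∧ 0 < s ∧ s ≤ 1 ∧ 0 < eps ∧ eps ≤ 1 ∧ (1 - s) ^ T < eps ∧
      c0 * Real.log N < h + 1 ∧ 6 * k * (k * T + k) ≤ n ∧
      ((n:ℝ) + 1) ^ h * ((m:ℝ) + 1) ^ h * (1 - (1 / (Q:ℝ)) ^ h) ^ (m - h) ≤ 1 / 12 ∧
      (N:ℝ) ^ ((k:ℝ) - d) * (((2:ℝ) ^ k * (n:ℝ) ^ k * (k:ℝ) ^ m) ^ 2 * eps) < 1 / 12 ∧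
      ((N:ℝ) ^ ((k:ℝ) - d) + 1) *
        (2 * 4 ^ k * s ^ c + 4 ^ k * (((k:ℝ) * (k * T)) ^ k / (n:ℝ) ^ k)) < 1 / 12 := by
  obtain ⟨e0, he0⟩ := exists_nat_ge ((7 * (k:ℝ) + 1) / d)
  obtain ⟨e, he⟩ : ∃ e : ℕ, e = e0 + 8 := ⟨_, rfl⟩
  have he8 : 8 ≤ e := by omega
  have hed : 7 * (k:ℝ) + 1 ≤ e * d := by
    rw [div_le_iff₀ hd] at he0
    have : (e0:ℝ) ≤ e := by exact_mod_cast (by omega : e0 ≤ e)
    nlinarith
  have hc : 1 ≤ 2 * e * k := Nat.mul_pos (by omega) (by omega)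
  obtain ⟨Q, hQ⟩ : ∃ Q : ℕ, Q = 2 * e * k * k ^ 2 := ⟨_, rfl⟩
  have hQ2 : 2 ≤ Q := by
    have : 4 ≤ k ^ 2 := by nlinarith
    rw [hQ]; nlinarith
  obtain ⟨B, hB⟩ : ∃ B : ℕ, B = 3 * (8 * 8 ^ k + 2 * 16 ^ k * (k * k) ^ k) := ⟨_, rfl⟩
  obtain ⟨D, hD⟩ : ∃ D : ℕ, D = 12 * (k * k) := ⟨_, rfl⟩
  obtain ⟨C, hC⟩ : ∃ C : ℕ, C = 4 * e * k := ⟨_, rfl⟩
  have hl : 0 < Real.log Q := Real.log_pos (by exact_mod_cast hQ2)
  have heR : (0:ℝ) < e := by exact_mod_cast (by omega : 0 < e)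
  refine ⟨1 / (2 * e * Real.log Q), by positivity, (B + C + D + 2 * e + 4 * k + 2) ^ e, fun N hN => ?_⟩
  obtain ⟨a, a1, a2⟩ := tB_root e N (by omega)
  have ha : B + C + D + 2 * e + 4 * k + 2 ≤ a := by
    have := lt_of_pow_lt_pow_left₀ e (Nat.zero_le _) (lt_of_le_of_lt hN a2)
    omega
  have ha2 : 2 ≤ a := by omega
  have haR : (2:ℝ) ≤ a := by exact_mod_cast ha2
  have h8 : a ^ 8 ≤ N := le_trans (Nat.pow_le_pow_right (by omega) he8) a1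
  have h7 : 1 ≤ a ^ 7 := Nat.one_le_pow _ _ (by omega)
  have h47 : a ^ 4 ≤ a ^ 7 := Nat.pow_le_pow_right (by omega) (by norm_num)
  have h87 : (4 * k + 2) * a ^ 7 ≤ a ^ 8 := by
    rw [pow_succ' a 7]; exact Nat.mul_le_mul_right _ (by omega)
  have hk7 : k ≤ k * a ^ 7 := Nat.le_mul_of_pos_right _ h7
  have hbig : 2 * (k * a ^ 7 + k) + 2 * a ^ 4 ≤ N := by nlinarith
  have hN1 : 1 ≤ N := by omega
  have h87' : (D + 1) * a ^ 7 ≤ a ^ 8 := by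
    rw [pow_succ' a 7]; exact Nat.mul_le_mul_right _ (by omega)
  have hbig2 : 6 * k * (k * a ^ 7 + k) + a ^ 4 ≤ N := by
    have : k * k * 1 ≤ k * k * a ^ 7 := Nat.mul_le_mul_left _ h7
    rw [hD] at h87'
    nlinarith
  refine ⟨a ^ 4, N - a ^ 4, Q, 2 * e * k, a ^ 7, ⌊1 / (2 * e * Real.log Q) * Real.log N⌋₊,
    1 / (a:ℝ), Real.exp (-(a:ℝ) ^ 5), by omega, hc, hQ.ge, by positivity, ?_, Real.exp_pos _, ?_, ?_,
    Nat.lt_floor_add_one _, by omega, ?_, ?_, ?_⟩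
  · rw [div_le_one (by linarith)]; linarith
  · exact Real.exp_le_one_iff.2 (by have : (0:ℝ) ≤ (a:ℝ) ^ 5 := by positivity
                                    linarith)
  · refine (tB_decay _ (by rw [div_le_one (by linarith)]; linarith) _).trans_lt (Real.exp_lt_exp.2 ?_)
    have h1 : 1 / (a:ℝ) * ((a ^ 7 : ℕ) : ℝ) = (a:ℝ) ^ 6 := by push_cast; field_simp
    have h2 : (a:ℝ) ^ 5 < (a:ℝ) ^ 6 := pow_lt_pow_right₀ (by linarith) (by norm_num)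
    rw [h1]; linarith
  · exact tB_neg a e N _ Q _ (by omega) hQ2 a2 (by omega) (by omega)
      (tB_Qh a e N Q (by omega) ha2 hQ2 hN1 a2)
  · exact tB_eps a e k N _ d hd (by omega) ha2 hN1 a2 (by omega)
  · refine (tB_last a e k N _ d hd (by omega) he8 hed ha2 (by omega) a1 a2 (by omega)).trans_le ?_
    have : (1 / 2 : ℝ) ^ k ≤ (1 / 2) ^ 2 := pow_le_pow_of_le_one (by norm_num) (by norm_num) hk
    linarith

end Pool.Agent.FS.MonoDom
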