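import Mathlib

namespace Pool.Agent.FS.MonoDom
open Finset
open scoped BigOperators Classical

/-- uniform probability on a finite type -/
noncomputable def pr {Ω : Type} [Fintype Ω] (P : Ω → Prop) : ℝ := 𝔼 ω, if P ω then (1:ℝ) else 0

variable {Ω : Type} [Fintype Ω]

theorem pr_nonneg (P : Ω → Prop) : 0 ≤ pr P :=
  Finset.expect_nonneg fun ω _ => by split_ifs <;> norm_num

theorem pr_mono {P P' : Ω → Prop} (h : ∀ ω, P ω → P' ω) : pr P ≤ pr P' :=
  Finset.expect_le_expect fun ω _ => by
    by_cases hp : P ω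
    · simp [hp, h ω hp]
    · simp only [hp, if_false]; split_ifs <;> norm_num

theorem pr_or (P P' : Ω → Prop) : pr (fun ω => P ω ∨ P' ω) ≤ pr P + pr P' := by
  unfold pr
  rw [← Finset.expect_add_distrib]
  refine Finset.expect_le_expect fun ω _ => ?_
  by_cases h1 : P ω <;> by_cases h2 : P' ω <;> simp [h1, h2]

theorem pr_not [Nonempty Ω] (P : Ω → Prop) : pr (fun ω => ¬ P ω) = 1 - pr P := by
  unfold pr
  have : (1:ℝ) = 𝔼 _ω : Ω, (1:ℝ) := by simp
  conv_rhs => rw [this, ← Finset.expect_sub_distrib]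
  refine Finset.expect_congr rfl fun ω _ => ?_
  by_cases h1 : P ω <;> simp [h1]

theorem pr_false : pr (fun _ : Ω => False) = 0 := by simp [pr]

theorem pr_true [Nonempty Ω] : pr (fun _ : Ω => True) = 1 := by simp [pr]

theorem pr_le_one (P : Ω → Prop) : pr P ≤ 1 := by
  rcases isEmpty_or_nonempty Ω with h | h
  · simp [pr]
  · exact (pr_mono (P' := fun _ => True) fun _ _ => trivial).trans pr_true.le

theorem pr_union {A : Type} (s : Finset A) (P : A → Ω → Prop) (e : ℝ) (h : ∀ a ∈ s, pr (P a) ≤ e) :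
    pr (fun ω => ∃ a ∈ s, P a ω) ≤ s.card * e := by
  induction s using Finset.induction_on with
  | empty => simp [pr]
  | insert a s ha ih =>
    have h1 := ih fun b hb => h b (Finset.mem_insert_of_mem hb)
    have h2 := h a (Finset.mem_insert_self _ _)
    have h3 := pr_or (P a) (fun ω => ∃ b ∈ s, P b ω)
    have h4 : pr (fun ω => ∃ b ∈ insert a s, P b ω) ≤ pr (fun ω => P a ω ∨ ∃ b ∈ s, P b ω) :=
      pr_mono fun ω hω => by simpa using hω
    rw [Finset.card_insert_of_notMem ha]; push_cast; linarith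

theorem pr_eq_card (P : Ω → Prop) :
    pr P = ((Finset.univ.filter P).card : ℝ) / Fintype.card Ω := by
  unfold pr
  rw [Finset.expect_eq_sum_div_card, Finset.sum_boole]; simp

theorem pr_prod_le {A B : Type} [Fintype A] [Fintype B] (P : A × B → Prop) (e : ℝ) (he : 0 ≤ e)
    (h : ∀ a, pr (fun b => P (a, b)) ≤ e) : pr P ≤ e := by
  rcases isEmpty_or_nonempty A with hA | hA
  · simpa [pr] using he
  unfold pr
  rw [← Finset.univ_product_univ, Finset.expect_product]
  exact Finset.expect_le Finset.univ_nonempty fun a _ => h a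

theorem pr_prod_le' {A B : Type} [Fintype A] [Fintype B] (P : A × B → Prop) (e : ℝ) (he : 0 ≤ e)
    (h : ∀ b, pr (fun a => P (a, b)) ≤ e) : pr P ≤ e := by
  rcases isEmpty_or_nonempty B with hA | hA
  · simpa [pr] using he
  unfold pr
  rw [← Finset.univ_product_univ, Finset.expect_product, Finset.expect_comm]
  exact Finset.expect_le Finset.univ_nonempty fun a _ => h a

end Pool.Agent.FS.MonoDom
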