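import Pool.Agent.FS.MonoDom.Pr

namespace Pool.Agent.FS.MonoDom
open Finset
open scoped BigOperators Classical

theorem tC_split {A : Type} [Fintype A] (m : ℕ) (f : (Fin (m + 1) → A) → ℝ) :
    𝔼 a, f a = 𝔼 x : A, 𝔼 a : Fin m → A, f (Fin.cons x a) := by
  rw [← Finset.expect_product', Finset.univ_product_univ]
  exact (Fintype.expect_equiv (Fin.consEquiv fun _ : Fin (m + 1) => A) _ _ fun _ => rfl).symm

theorem tC_cons {A P : Type} (m : ℕ) (α : Fin (m + 1) → A → P) (x : A) (a : Fin m → A) :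
    (fun u => α u ((Fin.cons x a : Fin (m + 1) → A) u)) =
      (Fin.cons (α 0 x) (fun u => α u.succ (a u)) : Fin (m + 1) → P) := by
  funext u
  refine Fin.cases ?_ (fun i => ?_) u <;> simp

theorem tC_cons_le {P : Type} [Preorder P] (m : ℕ) {x y : P} {a b : Fin m → P} (h : x ≤ y)
    (h' : a ≤ b) : (Fin.cons x a : Fin (m + 1) → P) ≤ Fin.cons y b := by
  intro u
  refine Fin.cases ?_ (fun i => ?_) u
  · simpa using h
  · simpa using h' i

/-- TASK C1: tensorisation over columns (induction on m, Fin.cons) -/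
theorem tensor {A B P : Type} [Fintype A] [Fintype B] [Preorder P] (c : ℕ) (m : ℕ)
    (α : Fin m → A → P) (β : Fin m → B → P)
    (H : ∀ u, ∀ G : P → ℝ, Monotone G → (∀ p, 0 ≤ G p) →
      𝔼 a, G (α u a) ^ c ≤ (𝔼 b, G (β u b)) ^ c)
    (F : (Fin m → P) → ℝ) (hF : Monotone F) (hF0 : ∀ p, 0 ≤ F p) :
    𝔼 a : Fin m → A, F (fun u => α u (a u)) ^ c ≤ (𝔼 b : Fin m → B, F (fun u => β u (b u))) ^ c := by
  induction m with
  | zero =>
    have e1 : ∀ a : Fin 0 → A, (fun u => α u (a u)) = Fin.elim0 := fun _ => Subsingleton.elim _ _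
    have e2 : ∀ b : Fin 0 → B, (fun u => β u (b u)) = Fin.elim0 := fun _ => Subsingleton.elim _ _
    simp only [e1, e2, Fintype.expect_const, le_refl]
  | succ m ih =>
    rw [tC_split, tC_split]
    simp only [tC_cons]
    refine le_trans (Finset.expect_le_expect fun x _ => ih (fun u => α u.succ) (fun u => β u.succ)
      (fun u => H u.succ) (fun v => F (Fin.cons (α 0 x) v))
      (fun v w h => hF (tC_cons_le m le_rfl h)) (fun v => hF0 _)) ?_
    exact H 0 (fun y => 𝔼 b : Fin m → B, F (Fin.cons y fun u => β u.succ (b u)))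
      (fun y z h => Finset.expect_le_expect fun b _ => hF (tC_cons_le m h le_rfl))
      (fun y => Finset.expect_nonneg fun b _ => hF0 _)

theorem tC_pow {a b p : ℝ} (ha : 0 ≤ a) (hab : a ≤ b) (hp : 0 ≤ p) (hp1 : p ≤ 1) (c : ℕ) :
    a ^ c + p ^ c * (b ^ c - a ^ c) ≤ (a + p * (b - a)) ^ c := by
  induction c with
  | zero => simp
  | succ c ih =>
    have h1 : 0 ≤ b ^ c - a ^ c := sub_nonneg.2 (pow_le_pow_left₀ ha hab c)
    have h2 : 0 ≤ p ^ c := pow_nonneg hp c
    have h3 : p ^ c ≤ 1 := pow_le_one₀ hp hp1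
    have h4 : 0 ≤ a ^ c := pow_nonneg ha c
    have h5 : 0 ≤ b - a := sub_nonneg.2 hab
    have h6 : 0 ≤ a + p * (b - a) := by positivity
    have h7 := mul_le_mul_of_nonneg_right ih h6
    have h8 : 0 ≤ p ^ c * (b ^ c - a ^ c) * ((1 - p) * a) :=
      mul_nonneg (mul_nonneg h2 h1) (mul_nonneg (sub_nonneg.2 hp1) ha)
    have h9 : 0 ≤ a ^ c * (b - a) * (p * (1 - p ^ c)) :=
      mul_nonneg (mul_nonneg h4 h5) (mul_nonneg hp (sub_nonneg.2 h3))
    rw [pow_succ (a + p * (b - a))]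
    refine le_trans ?_ h7
    rw [pow_succ, pow_succ, pow_succ]
    nlinarith [h8, h9]

theorem tC_ind {A : Type} [Fintype A] [Nonempty A] (Q : A → Prop) (x y : ℝ) :
    𝔼 a, (x + (if Q a then (1:ℝ) else 0) * y) = x + pr Q * y := by
  rw [Finset.expect_add_distrib, ← Finset.expect_mul, Fintype.expect_const]
  rfl

/-- TASK C2: one column. `α` is `lo` with probability `≥ 1 - q` and always `≤ hi`; `β` is always
`≥ lo` and is `hi` with probability `≥ p`; `q ≤ p^c`. -/
theorem column {A B P : Type} [Fintype A] [Fintype B] [Nonempty A] [Nonempty B] [Preorder P]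
    (c : ℕ) (α : A → P) (β : B → P) (lo hi : P) (p q : ℝ) (hp : 0 ≤ p) (hpq : q ≤ p ^ c)
    (hα : ∀ a, α a ≤ hi) (hα' : pr (fun a => ¬ α a ≤ lo) ≤ q)
    (hβ : ∀ b, lo ≤ β b) (hβ' : p ≤ pr (fun b => hi ≤ β b)) (hlh : lo ≤ hi)
    (G : P → ℝ) (hG : Monotone G) (hG0 : ∀ p, 0 ≤ G p) :
    𝔼 a, G (α a) ^ c ≤ (𝔼 b, G (β b)) ^ c := by
  have hab : G lo ≤ G hi := hG hlh
  have hp1 : p ≤ 1 := hβ'.trans (pr_le_one _)
  have h1 : 0 ≤ G hi ^ c - G lo ^ c := sub_nonneg.2 (pow_le_pow_left₀ (hG0 _) hab c)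
  have h5 : 0 ≤ G hi - G lo := sub_nonneg.2 hab
  have hA : 𝔼 a, G (α a) ^ c ≤ G lo ^ c + p ^ c * (G hi ^ c - G lo ^ c) := by
    refine le_trans (Finset.expect_le_expect (g := fun a => G lo ^ c +
      (if ¬ α a ≤ lo then (1:ℝ) else 0) * (G hi ^ c - G lo ^ c)) fun a _ => ?_) ?_
    · by_cases h : α a ≤ lo
      · have := pow_le_pow_left₀ (hG0 _) (hG h) c
        simpa [h] using this
      · have := pow_le_pow_left₀ (hG0 _) (hG (hα a)) c
        simpa [h] using this
    · have h2 := tC_ind (fun a => ¬ α a ≤ lo) (G lo ^ c) (G hi ^ c - G lo ^ c)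
      have h3 := mul_le_mul_of_nonneg_right (hα'.trans hpq) h1
      refine le_trans (le_of_eq ?_) (h2.le.trans (by linarith))
      refine Finset.expect_congr rfl fun a _ => ?_
      congr
  have hB : G lo + p * (G hi - G lo) ≤ 𝔼 b, G (β b) := by
    have h2 := tC_ind (fun b => hi ≤ β b) (G lo) (G hi - G lo)
    have h3 := mul_le_mul_of_nonneg_right hβ' h5
    refine le_trans (le_trans (by linarith) h2.ge) (Finset.expect_le_expect fun b _ => ?_)
    by_cases h : hi ≤ β b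
    · simpa [h] using hG h
    · simpa [h] using hG (hβ b)
  refine hA.trans ((tC_pow (hG0 _) hab hp hp1 c).trans (pow_le_pow_left₀ ?_ hB c))
  have := hG0 lo
  positivity

end Pool.Agent.FS.MonoDom
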