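import Pool.Agent.FS.MonoDom.Defs

/-! Monotone real circuits with wide gates: a gate is an arbitrary nondecreasing real function of
`r` earlier nodes. -/

namespace Pool.Agent.FS.MonoDom

/-- A node: an input variable, or a nondecreasing function `f` of `r` earlier nodes (`a i` refers
to the node `a i + 1` places earlier; `r = 0` gives the constants). -/
inductive WGate (ι : Type) where
  | var (i : ι)
  | op (r : ℕ) (f : (Fin r → ℝ) →o ℝ) (a : Fin r → ℕ)

/-- The fan-in of a node. -/
def fanIn {ι : Type} : WGate ι → ℕ
  | .var _ => 0
  | .op r _ _ => r

open Classical in
/-- Value of a node, given the input and the values of the earlier nodes (latest first). -/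
noncomputable def wstep {ι : Type} (x : ι → Prop) (vals : List ℝ) : WGate ι → ℝ
  | .var i => if x i then 1 else 0
  | .op _ f a => f fun i => vals.getD (a i) 0

/-- Values of all nodes of a circuit, a list of nodes with the latest node first. -/
noncomputable def wrun {ι : Type} (x : ι → Prop) : List (WGate ι) → List ℝ
  | [] => []
  | g :: gs => wstep x (wrun x gs) g :: wrun x gs

/-- The circuit accepts `x` if the value of its latest node is positive. -/
def WAccepts {ι : Type} (C : List (WGate ι)) (x : ι → Prop) : Prop := 0 < (wrun x C).getD 0 0

end Pool.Agent.FS.MonoDom
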