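import Pool.Agent.FS.MonoDom.Core4
import Pool.Agent.FS.MonoDom.WDefs

namespace Pool.Agent.FS.MonoDom
open Finset
open scoped BigOperators Classical
set_option linter.unusedSectionVars false
set_option linter.style.haveILetI false

variable {R : Type} [Fintype R] [DecidableEq R] {m k : ℕ} {Q T : ℕ} {s eps : ℝ}

theorem wop_err {c r ρ : ℕ} (hc : 1 ≤ c) (hcQ : c * k ^ 2 ≤ Q) (hQ : 0 < Q) (hs0 : 0 < s)
    (hs : s ≤ 1) (hT : (1 - s) ^ T < eps) (g : Fin r → Inp R m → ℝ)
    (hg : ∀ j, Good k Q eps (g j)) (hr : r ≤ ρ) :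
    pr (fun t : (Fin k → R) × (Fin m → Fin k) => Function.Injective t.1 ∧
      ∀ I, I ≠ univ → ¬ ∀ j, g j (X univ t.1 t.2) ≤ g j (X I t.1 t.2)) ≤
      ρ * (4 ^ k * s ^ c) + ((k:ℝ) * (ρ * 2 ^ k * (k * T))) ^ k / (Fintype.card R : ℝ) ^ k := by
  have b1 : pr (fun t : (Fin k → R) × (Fin m → Fin k) => ∃ j ∈ univ, Bad Q s (g j) t) ≤
      ρ * (4 ^ k * s ^ c) := by
    refine (pr_union _ _ _ fun j _ => bad_le (k := k) hc hcQ s hs0 (g j) (hg j).1).trans ?_
    have : (r:ℝ) ≤ ρ := by exact_mod_cast hr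
    simp only [Finset.card_univ, Fintype.card_fin]
    gcongr
  have b3 : pr (fun t : (Fin k → R) × (Fin m → Fin k) => (Function.Injective t.1 ∧
      ∀ I, I ≠ univ → ¬ ∀ j, g j (X univ t.1 t.2) ≤ g j (X I t.1 t.2)) ∧
      ∀ j, ¬ Bad Q s (g j) t) ≤
      ((k:ℝ) * (ρ * 2 ^ k * (k * T))) ^ k / (Fintype.card R : ℝ) ^ k := by
    refine pr_prod_le' _ _ (by positivity) fun φ => ?_
    have := tree (fun v => (Function.Injective v ∧
      ∀ I, I ≠ univ → ¬ ∀ j, g j (X univ v φ) ≤ g j (X I v φ)) ∧ ∀ j, ¬ Bad Q s (g j) (v, φ))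
      (ρ * 2 ^ k * (k * T)) (fun C hC v0 => by
        have hS : ∀ p : Fin r × Finset (Fin k), ∃ S : Finset R, S.card ≤ k * T ∧
            (¬ p.2 ⊆ C → ∀ v, MinI (g p.1) p.2 v φ → ¬ Bad Q s (g p.1) (v, φ) →
              (∀ i ∈ C, v i = v0 i) → ∃ i, i ∉ C ∧ v i ∈ S) := fun p => by
          by_cases h : p.2 ⊆ C
          · exact ⟨∅, by simp, fun h' => absurd h h'⟩
          · obtain ⟨S, h1, h2⟩ := branch hQ hs hT (g p.1) (hg _).1 (hg _).2.2 φ p.2 C h v0
            exact ⟨S, h1, fun _ => h2⟩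
        choose S hS1 hS2 using hS
        refine ⟨univ.biUnion S, (Finset.card_biUnion_le_card_mul _ _ _ fun p _ => hS1 p).trans ?_,
          fun v e a => ?_⟩
        · simp only [Finset.card_univ, Fintype.card_prod, Fintype.card_fin, Fintype.card_finset]
          gcongr
        · have hI : ∀ j, ∃ I, MinI (g j) I v φ := fun j => by
            obtain ⟨I, h1, h2⟩ := (hg j).2.1 v e.1.1 φ
            exact exists_minI _ _ _ I h1 h2
          choose I hI using hI
          by_cases hall : ∀ j, I j ⊆ C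
          · exact absurd (fun j => (hI j).2.1.trans ((hg j).1 (X_mono (hall j) _ _))) (e.1.2 C hC)
          · obtain ⟨j, hj⟩ := not_forall.1 hall
            obtain ⟨i, h1, h2⟩ := hS2 (j, I j) hj v (hI j) (e.2 j) a
            exact ⟨i, h1, Finset.mem_biUnion.2 ⟨_, Finset.mem_univ _, h2⟩⟩) k ∅
    rcases isEmpty_or_nonempty (Fin k → R) with he | ⟨⟨v0⟩⟩
    · simp only [pr, Finset.univ_eq_empty, Finset.expect_empty]; positivity
    have h3 := this v0 (by simp)
    rw [pr_eq_card]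
    simp only [Fintype.card_pi, Finset.prod_const, Finset.card_univ, Fintype.card_fin, Nat.cast_pow]
    refine div_le_div_of_nonneg_right ?_ (by positivity)
    have h4 : ((((k * (ρ * 2 ^ k * (k * T))) ^ k : ℕ)) : ℝ) =
        ((k:ℝ) * (ρ * 2 ^ k * (k * T))) ^ k := by push_cast; rfl
    rw [← h4]
    refine Nat.cast_le.2 (le_trans (Finset.card_le_card fun v hv => ?_) h3)
    simp only [Finset.mem_filter, Finset.mem_univ, true_and] at hv ⊢
    exact ⟨hv, by simp⟩
  refine le_trans (pr_mono ?_) ((pr_or _ _).trans (add_le_add b1 b3))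
  intro t ht
  by_cases e : ∀ j, ¬ Bad Q s (g j) t
  · exact Or.inr ⟨ht, e⟩
  · obtain ⟨j, hj⟩ := not_forall.1 e
    exact Or.inl ⟨j, Finset.mem_univ _, not_not.1 hj⟩

theorem wapprox {ι : Type} {c ρ : ℕ} (hc : 1 ≤ c) (hcQ : c * k ^ 2 ≤ Q) (hQ : 0 < Q) (hs0 : 0 < s)
    (hs : s ≤ 1) (hT : (1 - s) ^ T < eps) (he0 : 0 < eps) (he : eps ≤ 1) (hk : 2 ≤ k) [Nonempty R]
    (σ : ι → Inp R m → Prop) (hσ : ∀ i, Monotone (σ i) ∧ GenP k (σ i)) (C : List (WGate ι))
    (hC : ∀ G ∈ C, fanIn G ≤ ρ) :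
    ∃ (A : ℕ → Inp R m → ℝ) (P : (Fin k → R) × (Fin m → Fin k) → Prop)
      (N : (Fin m → R → Fin Q) → Prop), (∀ a, Good k Q eps (A a)) ∧
      pr P ≤ C.length *
        (ρ * (4 ^ k * s ^ c) + ((k:ℝ) * (ρ * 2 ^ k * (k * T))) ^ k / (Fintype.card R : ℝ) ^ k) ∧
      pr N ≤ C.length * (((2:ℝ) ^ k * (Fintype.card R : ℝ) ^ k * (k:ℝ) ^ m) ^ 2 * eps) ∧
      (∀ a t, Function.Injective t.1 → ¬ P t →
        (wrun (fun i => σ i (X univ t.1 t.2)) C).getD a 0 ≤ A a (X univ t.1 t.2)) ∧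
      (∀ a y, ¬ N y → A a (Y univ y) ≤ (wrun (fun i => σ i (Y univ y)) C).getD a 0) := by
  haveI : Nonempty (Fin Q) := ⟨⟨0, hQ⟩⟩
  have hE : (∅ : Finset (Fin k)) ≠ univ := fun h => by
    have := congrArg Finset.card h; simp at this; omega
  induction C with
  | nil =>
    refine ⟨fun _ _ => 0, fun _ => False, fun _ => False, fun _ => ⟨monotone_const,
      fun _ _ _ => ⟨∅, hE, le_rfl⟩, fun _ _ _ _ => ?_⟩, by simp [pr_false], by simp [pr_false],
      by simp [wrun], by simp [wrun]⟩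
    simp only [lt_irrefl, not_false_iff, pr_true]; exact he
  | cons G C ih =>
    obtain ⟨A, P, N, hA, hP, hN, h1, h2⟩ := ih fun G' h => hC G' (List.mem_cons_of_mem _ h)
    have hG := hC G List.mem_cons_self
    set η := ρ * (4 ^ k * s ^ c) + ((k:ℝ) * (ρ * 2 ^ k * (k * T))) ^ k / (Fintype.card R : ℝ) ^ k with hη
    have hη0 : 0 ≤ η := by positivity
    have key : ∃ (f : Inp R m → ℝ) (P' : (Fin k → R) × (Fin m → Fin k) → Prop), Monotone f ∧
        pr P' ≤ η ∧
        (∀ t, Function.Injective t.1 → ¬ P t → ¬ P' t → ∃ I, I ≠ univ ∧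
          wstep (fun i => σ i (X univ t.1 t.2))
          (wrun (fun i => σ i (X univ t.1 t.2)) C) G ≤ f (X I t.1 t.2)) ∧
        (∀ y, ¬ N y → f (Y univ y) ≤ wstep (fun i => σ i (Y univ y))
          (wrun (fun i => σ i (Y univ y)) C) G) := by
      cases G with
      | var i =>
        refine ⟨fun x => if σ i x then 1 else 0, fun _ => False, fun x y hxy => ?_,
          by rwa [pr_false], fun t ht _ _ => ?_, fun _ _ => le_rfl⟩
        · by_cases h : σ i x
          · simp [h, (hσ i).1 hxy h]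
          · simp only [h, if_false]; split_ifs <;> norm_num
        · by_cases h : σ i (X univ t.1 t.2)
          · obtain ⟨I, hI, h'⟩ := (hσ i).2 _ ht _ h
            exact ⟨I, hI, by simp [wstep, h, h']⟩
          · refine ⟨∅, hE, ?_⟩
            simp only [wstep, h, if_false]; split_ifs <;> norm_num
      | op r F a =>
        refine ⟨fun x => F fun i => A (a i) x, _,
          fun x y hxy => F.mono fun i => (hA (a i)).1 hxy,
          wop_err hc hcQ hQ hs0 hs hT (fun i => A (a i)) (fun i => hA (a i)) hG, ?_,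
          fun y hy => F.mono fun i => h2 (a i) y hy⟩
        intro t ht hp hp'
        by_contra hn
        exact hp' ⟨ht, fun I hI e => hn ⟨I, hI, F.mono fun i => (h1 (a i) t ht hp).trans (e i)⟩⟩
    obtain ⟨f, P', f1, f3, f4, f5⟩ := key
    obtain ⟨g, g1, g2, g3, g4, g5⟩ := closure (k := k) hQ eps he0.le he hk f f1
    refine ⟨fun a => Nat.casesOn a g A, fun t => P t ∨ P' t,
      fun y => N y ∨ f (Y univ y) < g (Y univ y), ?_, ?_, ?_, ?_, ?_⟩
    · rintro (_ | a)
      · exact ⟨g1, g2, g3⟩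
      · exact hA a
    · refine (pr_or _ _).trans ((add_le_add hP f3).trans (le_of_eq ?_))
      rw [List.length_cons]; push_cast; ring
    · refine (pr_or _ _).trans ((add_le_add hN g5).trans (le_of_eq ?_))
      rw [List.length_cons]; push_cast; ring
    · rintro (_ | a) t ht hp
      · obtain ⟨I, hI, h⟩ := f4 t ht (fun e => hp (Or.inl e)) (fun e => hp (Or.inr e))
        exact h.trans (g4 I _ _ _ hI (X_mono (Finset.subset_univ _) _ _))
      · exact h1 a t ht (fun e => hp (Or.inl e))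
    · rintro (_ | a) y hy
      · exact (not_lt.1 fun e => hy (Or.inr e)).trans (f5 y (fun e => hy (Or.inl e)))
      · exact h2 a y (fun e => hy (Or.inl e))

theorem wcore {ι : Type} {c ρ : ℕ} (hρ : 1 ≤ ρ) (hc : 1 ≤ c) (hcQ : c * k ^ 2 ≤ Q) (hs0 : 0 < s)
    (hs : s ≤ 1) (hT : (1 - s) ^ T < eps) (he0 : 0 < eps) (he : eps ≤ 1) (hk : 2 ≤ k)
    (σ : ι → Inp R m → Prop) (hσ : ∀ i, Monotone (σ i) ∧ GenP k (σ i)) (C : List (WGate ι))
    (hC : ∀ G ∈ C, fanIn G ≤ ρ)
    (hn : 6 * k * (k * T + k) ≤ Fintype.card R) (L : ℝ) (hL : (C.length : ℝ) ≤ L)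
    (hA : L * (((2:ℝ) ^ k * (Fintype.card R : ℝ) ^ k * (k:ℝ) ^ m) ^ 2 * eps) < 1 / 12)
    (hB : (L + 1) * (ρ * (4 ^ k * s ^ c) + ((k:ℝ) * (ρ * 2 ^ k * (k * T))) ^ k / (Fintype.card R : ℝ) ^ k) < 1 / 12)
    (hacc : pr (fun t : (Fin k → R) × (Fin m → Fin k) => Function.Injective t.1 ∧
        ¬ WAccepts C fun i => σ i (X univ t.1 t.2)) +
      pr (fun y : Fin m → R → Fin Q => WAccepts C fun i => σ i (Y univ y)) ≤ 3 / 4) :
    False := by
  have hQ : 0 < Q := lt_of_lt_of_le (by positivity) hcQ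
  haveI : Nonempty (Fin Q) := ⟨⟨0, hQ⟩⟩
  haveI : Nonempty (Fin k) := ⟨⟨0, by omega⟩⟩
  haveI : Nonempty R := Fintype.card_pos_iff.1 (lt_of_lt_of_le (by positivity) hn)
  have hp0 := pr_nonneg (fun t : (Fin k → R) × (Fin m → Fin k) => Function.Injective t.1 ∧
        ¬ WAccepts C fun i => σ i (X univ t.1 t.2))
  have hq0 := pr_nonneg (fun y : Fin m → R → Fin Q => WAccepts C fun i => σ i (Y univ y))
  have hE : (∅ : Finset (Fin k)) ≠ univ := fun h => by
    have := congrArg Finset.card h; simp at this; omega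
  obtain ⟨A, P, N, hG, hP, hN, h1, h2⟩ := wapprox hc hcQ hQ hs0 hs hT he0 he hk σ hσ C hC
  have hbot : ∀ (v : Fin k → R) (φ : Fin m → Fin k), X ∅ v φ = ⊥ := fun v φ => by
    funext u r; simp [X]
  set η := ρ * (4 ^ k * s ^ c) + ((k:ℝ) * (ρ * 2 ^ k * (k * T))) ^ k / (Fintype.card R : ℝ) ^ k with hη
  by_cases h0 : 0 < A 0 ⊥
  · have a1 : pr (fun _ : Fin m → R → Fin Q => True) ≤
        pr (fun y => N y ∨ WAccepts C fun i => σ i (Y univ y)) :=
      pr_mono fun y _ => by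
        by_cases hy : N y
        · exact Or.inl hy
        · exact Or.inr ((h0.trans_le ((hG 0).1 bot_le)).trans_le (h2 0 y hy))
    rw [pr_true] at a1
    have a2 := pr_or N (fun y => WAccepts C fun i => σ i (Y univ y))
    have a3 := mul_le_mul_of_nonneg_right hL
      (by positivity : (0:ℝ) ≤ ((2:ℝ) ^ k * (Fintype.card R : ℝ) ^ k * (k:ℝ) ^ m) ^ 2 * eps)
    linarith
  · obtain ⟨S, hS, hW⟩ := hit (k := k) hQ (fun x => A 0 ⊥ < A 0 x) (mono_lt (hG 0).1 _) ⊥ s eps T
      hs hT (by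
      have := (hG 0).2.2 ∅ hE (fun _ => Classical.arbitrary R) (fun _ => Classical.arbitrary _)
      rw [hbot] at this
      exact this)
    have a1 := inj_avoid (k := k) S (k * T) hS hn (by omega)
    rw [← pr_fst (B := Fin m → Fin k)] at a1
    have a2 : pr (fun t : (Fin k → R) × (Fin m → Fin k) =>
        Function.Injective t.1 ∧ ∀ i, t.1 i ∉ S) ≤ pr (fun t => (P t ∨ Bad Q s (A 0) t) ∨
          (Function.Injective t.1 ∧ ¬ WAccepts C fun i => σ i (X univ t.1 t.2))) :=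
      pr_mono fun t ht => by
        by_contra hn''
        rw [not_or, not_or] at hn''
        have hn' := hn''.1
        obtain ⟨I, hI, hI'⟩ := (hG 0).2.1 _ ht.1 t.2
        have hac : WAccepts C fun i => σ i (X univ t.1 t.2) := by_contra fun e => hn''.2 ⟨ht.1, e⟩
        have hlt : A 0 ⊥ < A 0 (X I t.1 t.2) :=
          (not_lt.1 h0).trans_lt ((lt_of_lt_of_le hac (h1 0 t ht.1 hn'.1)).trans_le hI')
        have hst : Strong Q s (fun x => A 0 ⊥ < A 0 x) ⊥ (I.image t.1) := by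
          by_contra hst
          exact hn'.2 ⟨(∅, I), by simpa using hI, by rw [hbot, Finset.empty_union]; exact hlt,
            by rwa [hbot]⟩
        obtain ⟨r, hr, hrS⟩ := hW _
          (Finset.card_image_le.trans (by simpa using Finset.card_le_univ I)) hst
        obtain ⟨i, -, rfl⟩ := Finset.mem_image.1 hr
        exact ht.2 i hrS
    have a3 := pr_or P (Bad Q s (A 0))
    have a3' := pr_or (fun t => P t ∨ Bad Q s (A 0) t) (fun t : (Fin k → R) × (Fin m → Fin k) =>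
      Function.Injective t.1 ∧ ¬ WAccepts C fun i => σ i (X univ t.1 t.2))
    have a4 := bad_le (k := k) hc hcQ s hs0 (A 0) (hG 0).1
    have hη0 : 0 ≤ η := by positivity
    have a5 := mul_le_mul_of_nonneg_right hL hη0
    have a6 : 4 ^ k * s ^ c ≤ η := by
      have : (0:ℝ) ≤ ((k:ℝ) * (ρ * 2 ^ k * (k * T))) ^ k / (Fintype.card R : ℝ) ^ k := by positivity
      have h0' : (0:ℝ) ≤ 4 ^ k * s ^ c := by positivity
      have : 4 ^ k * s ^ c ≤ ρ * (4 ^ k * s ^ c) :=
        le_mul_of_one_le_left h0' (by exact_mod_cast hρ)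
      rw [hη]; linarith
    linarith

end Pool.Agent.FS.MonoDom
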