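import Pool.Agent.FS.MonoDom.Num

namespace Pool.Agent.FS.MonoDom

theorem wparams (k : ℕ) (hk : 2 ≤ k) (d : ℝ) (hd : 0 < d) (hd1 : d ≤ 1) :
    ∃ c0 : ℝ, 0 < c0 ∧ ∃ N0 : ℕ, ∀ N : ℕ, N0 ≤ N → ∃ (m n Q c T h ρ : ℕ) (s eps : ℝ),
      N = m + n ∧ 1 ≤ c ∧ c * k ^ 2 ≤ Q ∧ 0 < s ∧ s ≤ 1 ∧ 0 < eps ∧ eps ≤ 1 ∧ (1 - s) ^ T < eps ∧
      c0 * Real.log N < h + 1 ∧ 6 * k * (k * T + k) ≤ n ∧ 1 ≤ ρ ∧ (N:ℝ) ^ (d / (4 * k)) ≤ ρ ∧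
      ((n:ℝ) + 1) ^ h * ((m:ℝ) + 1) ^ h * (1 - (1 / (Q:ℝ)) ^ h) ^ (m - h) ≤ 1 / 12 ∧
      (N:ℝ) ^ ((k:ℝ) - d) * (((2:ℝ) ^ k * (n:ℝ) ^ k * (k:ℝ) ^ m) ^ 2 * eps) < 1 / 12 ∧
      ((N:ℝ) ^ ((k:ℝ) - d) + 1) *
        (ρ * (4 ^ k * s ^ c) + ((k:ℝ) * (ρ * 2 ^ k * (k * T))) ^ k / (n:ℝ) ^ k) < 1 / 12 := by
  obtain ⟨c0, hc0, N0, H⟩ := params k hk (d / 2) (by positivity)
  have ht : Filter.Tendsto (fun N : ℕ => (N:ℝ) ^ (d / 4)) Filter.atTop Filter.atTop :=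
    (tendsto_rpow_atTop (by positivity)).comp tendsto_natCast_atTop_atTop
  obtain ⟨N1, hN1⟩ := Filter.eventually_atTop.1 (ht.eventually_ge_atTop (2 * (2 * 2 ^ k) ^ k))
  refine ⟨c0, hc0, N0 + N1 + 1, fun N hN => ?_⟩
  obtain ⟨m, n, Q, c, T, h, s, eps, e1, e2, e3, e4, e5, e6, e7, e8, e9, e10, e11, e12, e13⟩ :=
    H N (by omega)
  have hN1' := hN1 N (by omega)
  have hNR : (1:ℝ) ≤ N := by exact_mod_cast (by omega : 1 ≤ N)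
  have hkR : (2:ℝ) ≤ k := by exact_mod_cast hk
  have hg1 : (1:ℝ) ≤ (N:ℝ) ^ (d / (4 * k)) := Real.one_le_rpow hNR (by positivity)
  have hρ1 : (N:ℝ) ^ (d / (4 * k)) ≤ ⌈(N:ℝ) ^ (d / (4 * k))⌉₊ := Nat.le_ceil _
  have hρ2 : (⌈(N:ℝ) ^ (d / (4 * k))⌉₊ : ℝ) ≤ 2 * (N:ℝ) ^ (d / (4 * k)) := by
    have := Nat.ceil_lt_add_one (le_trans zero_le_one hg1)
    linarith
  generalize ⌈(N:ℝ) ^ (d / (4 * k))⌉₊ = ρ at hρ1 hρ2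
  have hρ0 : (1:ℝ) ≤ ρ := hg1.trans hρ1
  have hmono : (N:ℝ) ^ ((k:ℝ) - d) ≤ (N:ℝ) ^ ((k:ℝ) - d / 2) :=
    Real.rpow_le_rpow_of_exponent_le hNR (by linarith)
  refine ⟨m, n, Q, c, T, h, ρ, s, eps, e1, e2, e3, e4, e5, e6, e7, e8, e9, e10,
    by exact_mod_cast hρ0, hρ1, e11, lt_of_le_of_lt (by gcongr) e12, lt_of_le_of_lt ?_ e13⟩
  have a1 : (1:ℝ) ≤ (N:ℝ) ^ ((k:ℝ) - d) := Real.one_le_rpow hNR (by linarith)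
  have a2 : ((ρ:ℝ) * 2 ^ k) ^ k ≤ (2 * 2 ^ k) ^ k * (N:ℝ) ^ (d / 4) := by
    have : (N:ℝ) ^ (d / 4) = ((N:ℝ) ^ (d / (4 * k))) ^ k := by
      rw [← Real.rpow_natCast, ← Real.rpow_mul (by linarith)]
      congr 1; field_simp
    rw [this, ← mul_pow]
    refine pow_le_pow_left₀ (by positivity) ?_ k
    have : (0:ℝ) ≤ 2 ^ k := by positivity
    nlinarith
  have a3 : (N:ℝ) ^ ((k:ℝ) - d / 2) = (N:ℝ) ^ ((k:ℝ) - d) * ((N:ℝ) ^ (d / 4) * (N:ℝ) ^ (d / 4)) := by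
    rw [← Real.rpow_add (by linarith), ← Real.rpow_add (by linarith)]; congr 1; ring
  have a4 : ((N:ℝ) ^ ((k:ℝ) - d) + 1) * ((ρ:ℝ) * 2 ^ k) ^ k ≤ (N:ℝ) ^ ((k:ℝ) - d / 2) + 1 := by
    have b0 : (0:ℝ) ≤ (N:ℝ) ^ (d / 4) := by positivity
    calc _ ≤ (2 * (N:ℝ) ^ ((k:ℝ) - d)) * ((2 * 2 ^ k) ^ k * (N:ℝ) ^ (d / 4)) := by
          gcongr; linarith
      _ = (N:ℝ) ^ ((k:ℝ) - d) * ((2 * (2 * 2 ^ k) ^ k) * (N:ℝ) ^ (d / 4)) := by ring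
      _ ≤ (N:ℝ) ^ ((k:ℝ) - d) * ((N:ℝ) ^ (d / 4) * (N:ℝ) ^ (d / 4)) := by gcongr
      _ ≤ _ := by rw [a3]; linarith
  have a5 : (ρ:ℝ) ≤ ((ρ:ℝ) * 2 ^ k) ^ k := by
    have b1 : (1:ℝ) ≤ 2 ^ k := one_le_pow₀ (by norm_num)
    have b2 : (ρ:ℝ) ≤ ρ * 2 ^ k := le_mul_of_one_le_right (by linarith) b1
    exact b2.trans (le_self_pow₀ (hρ0.trans b2) (by omega))
  have a6 : (1:ℝ) ≤ 4 ^ k := one_le_pow₀ (by norm_num)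
  have a7 : (ρ:ℝ) * (4 ^ k * s ^ c) + ((k:ℝ) * (ρ * 2 ^ k * (k * T))) ^ k / (n:ℝ) ^ k ≤
      ((ρ:ℝ) * 2 ^ k) ^ k *
        (2 * 4 ^ k * s ^ c + 4 ^ k * (((k:ℝ) * (k * T)) ^ k / (n:ℝ) ^ k)) := by
    have b1 : ((k:ℝ) * (ρ * 2 ^ k * (k * T))) ^ k / (n:ℝ) ^ k =
        ((ρ:ℝ) * 2 ^ k) ^ k * (((k:ℝ) * (k * T)) ^ k / (n:ℝ) ^ k) := by
      rw [← mul_div_assoc, ← mul_pow]; congr 2; ring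
    have b2 : (0:ℝ) ≤ 4 ^ k * s ^ c := by positivity
    have b3 : (0:ℝ) ≤ ((k:ℝ) * (k * T)) ^ k / (n:ℝ) ^ k := by positivity
    have b4 : (0:ℝ) ≤ ((ρ:ℝ) * 2 ^ k) ^ k := by positivity
    rw [b1, mul_add]
    refine add_le_add ?_ (mul_le_mul_of_nonneg_left (le_mul_of_one_le_left b3 a6) b4)
    exact mul_le_mul a5 (by linarith) b2 b4
  calc _ ≤ ((N:ℝ) ^ ((k:ℝ) - d) + 1) * (((ρ:ℝ) * 2 ^ k) ^ k *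
        (2 * 4 ^ k * s ^ c + 4 ^ k * (((k:ℝ) * (k * T)) ^ k / (n:ℝ) ^ k))) := by gcongr
    _ ≤ _ := by
      rw [← mul_assoc]
      exact mul_le_mul_of_nonneg_right a4 (by positivity)

end Pool.Agent.FS.MonoDom
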